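import Pool.Agent.Helper45.CR.Dom
import Mathlib.Analysis.SpecialFunctions.Stirling

set_option autoImplicit false

namespace Pool.Agent.Helper45.CR

open MeasureTheory Finset Pool.Agent.Helper43.Copula Pool.Agent.Helper3.Cop

/-- product of equally spaced factors -/
noncomputable def PP (m : ℕ) : ℝ := ∏ k ∈ range m, (1 + ((k : ℝ) + 1) / m)

theorem PP_nonneg (m : ℕ) : 0 ≤ PP m := prod_nonneg fun k _ => by positivity

theorem PP_le (m : ℕ) : PP m ≤ √2 * (4 / Real.exp 1) ^ m := by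
  rcases Nat.eq_zero_or_pos m with h | h
  · subst h
    unfold PP
    simp only [range_zero, prod_empty, pow_zero, mul_one]
    exact Real.one_le_sqrt.mpr (by norm_num)
  · have hm : (0 : ℝ) < m := by exact_mod_cast h
    have he : 0 < Real.exp 1 := Real.exp_pos 1
    have h1 : PP m * (m : ℝ) ^ m * m.factorial = (2 * m).factorial := by
      have h2 : PP m * (m : ℝ) ^ m = ∏ k ∈ range m, ((m + 1 + k : ℕ) : ℝ) := by
        unfold PP
        have h3 : (m : ℝ) ^ m = ∏ _k ∈ range m, (m : ℝ) := by simp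
        rw [h3, ← prod_mul_distrib]
        apply prod_congr rfl
        intro k _
        push_cast
        field_simp
        ring
      rw [h2, ← Nat.cast_prod, ← Nat.ascFactorial_eq_prod_range, ← Nat.cast_mul, mul_comm,
        Nat.factorial_mul_ascFactorial]
      congr 2
      ring
    have h2 : Stirling.stirlingSeq (2 * m) ≤ Stirling.stirlingSeq m := by
      have := Stirling.stirlingSeq'_antitone (show m - 1 ≤ 2 * m - 1 by omega)
      simp only [Function.comp, Nat.succ_eq_add_one] at this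
      rwa [show 2 * m - 1 + 1 = 2 * m by omega, show m - 1 + 1 = m by omega] at this
    unfold Stirling.stirlingSeq at h2
    have hsm : 0 < √(2 * (m : ℝ)) := Real.sqrt_pos.mpr (by positivity)
    have h4 : √(2 * ((2 * m : ℕ) : ℝ)) = √2 * √(2 * (m : ℝ)) := by
      rw [← Real.sqrt_mul (by norm_num)]
      congr 1
      push_cast
      ring
    have hs2 : 0 < √2 := Real.sqrt_pos.mpr (by norm_num)
    rw [h4, div_le_div_iff₀ (by positivity) (by positivity), ← h1] at h2
    have h5 : (((2 * m : ℕ) : ℝ) / Real.exp 1) ^ (2 * m) =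
        (4 / Real.exp 1) ^ m * (m : ℝ) ^ m * ((m : ℝ) / Real.exp 1) ^ m := by
      rw [← mul_pow, ← mul_pow, pow_mul]
      congr 1
      push_cast
      field_simp
      ring
    rw [h5] at h2
    have hpos : 0 < (m : ℝ) ^ m * m.factorial * (√(2 * (m : ℝ)) * ((m : ℝ) / Real.exp 1) ^ m) := by
      positivity
    have h6 : PP m * ((m : ℝ) ^ m * m.factorial *
        (√(2 * (m : ℝ)) * ((m : ℝ) / Real.exp 1) ^ m)) ≤
        √2 * (4 / Real.exp 1) ^ m * ((m : ℝ) ^ m * m.factorial *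
        (√(2 * (m : ℝ)) * ((m : ℝ) / Real.exp 1) ^ m)) := by
      calc _ = PP m * (m : ℝ) ^ m * m.factorial * (√(2 * (m : ℝ)) *
            ((m : ℝ) / Real.exp 1) ^ m) := by ring
        _ ≤ _ := h2
        _ = _ := by ring
    exact le_of_mul_le_mul_right h6 hpos

/-- number of equally spaced points below a level -/
theorem count_le (m : ℕ) (c t : ℝ) (hc : 0 < c) :
    (∑ l ∈ range m, if c * (1 + ((l : ℝ) + 1) / m) ≤ t then (1 : ℝ) else 0) ≤
      m * clamp (t / c - 1) := by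
  classical
  rcases Nat.eq_zero_or_pos m with h | h
  · subst h; simp
  · have hm : (0 : ℝ) < m := by exact_mod_cast h
    set y := t / c - 1 with hy
    rw [← sum_filter, sum_const, nsmul_eq_mul, mul_one]
    have hsub : (range m).filter (fun l : ℕ => c * (1 + ((l : ℝ) + 1) / m) ≤ t) ⊆
        range (min m ⌊(m : ℝ) * y⌋₊) := by
      intro l hl
      rw [mem_filter, mem_range] at hl
      rw [mem_range, lt_min_iff]
      refine ⟨hl.1, ?_⟩
      have h1 := hl.2
      have h2 : 1 + ((l : ℝ) + 1) / m ≤ t / c := by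
        rw [le_div_iff₀ hc, mul_comm]
        exact h1
      have h3 : ((l : ℝ) + 1) / m ≤ y := by
        rw [hy]
        linarith
      rw [div_le_iff₀ hm] at h3
      have h4 : l + 1 ≤ ⌊(m : ℝ) * y⌋₊ := by
        apply Nat.le_floor
        push_cast
        linarith [mul_comm y (m : ℝ)]
      omega
    have hcard := card_le_card hsub
    rw [card_range] at hcard
    have h1 : (#((range m).filter (fun l : ℕ => c * (1 + ((l : ℝ) + 1) / m) ≤ t)) : ℝ) ≤
        ((min m ⌊(m : ℝ) * y⌋₊ : ℕ) : ℝ) := by exact_mod_cast hcard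
    refine h1.trans ?_
    rcases le_total y 0 with h0 | h0
    · have h2 : ⌊(m : ℝ) * y⌋₊ = 0 := Nat.floor_eq_zero.mpr (by nlinarith)
      rw [h2, clamp_of_nonpos h0]
      simp
    · have h2 : ((min m ⌊(m : ℝ) * y⌋₊ : ℕ) : ℝ) ≤ min (m : ℝ) (m * y) := by
        rw [Nat.cast_min]
        exact min_le_min le_rfl (Nat.floor_le (by positivity))
      refine h2.trans ?_
      unfold clamp
      rw [max_eq_right (le_min zero_le_one h0), mul_min_of_nonneg _ _ hm.le, mul_one]

/-- number of small coordinates in class `j` -/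
def nj (n j : ℕ) : ℕ := (n - 7) / j + 2

theorem nj_pos (n j : ℕ) : 0 < nj n j := Nat.succ_pos _

theorem nj_le {n j : ℕ} (hn : 8 ≤ n) (hj : 1 ≤ j) : nj n j ≤ n := by
  unfold nj
  have := Nat.div_le_self (n - 7) j
  omega

theorem mul_nj_ge {n j : ℕ} (hn : 8 ≤ n) (hj : 1 ≤ j) : n + j ≤ j * nj n j + 6 := by
  unfold nj
  have h1 := Nat.div_add_mod (n - 7) j
  have h2 := Nat.mod_lt (n - 7) hj
  rw [mul_add]
  omega

theorem mul_nj_le {n j : ℕ} (hn : 8 ≤ n) (hj : 1 ≤ j) : j * nj n j + 7 ≤ n + 2 * j := by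
  unfold nj
  have h1 := Nat.mul_div_le (n - 7) j
  rw [mul_add]
  omega

/-- corners of class `j` -/
noncomputable def bb (n j k : ℕ) : ℝ :=
  if k < nj n j then (1 / 2) ^ (j + 1) * (1 + ((k : ℝ) + 1) / nj n j)
  else (1 / 2) * (1 + (((k - nj n j : ℕ) : ℝ) + 1) / ((n - nj n j : ℕ) : ℝ))

theorem bb_nonneg (n j k : ℕ) : 0 ≤ bb n j k := by
  unfold bb
  split_ifs <;> positivity

theorem bb_le_one {n j k : ℕ} (hk : k < n) : bb n j k ≤ 1 := by
  unfold bb
  split_ifs with h
  · have h0 : (0 : ℝ) < nj n j := by exact_mod_cast nj_pos n j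
    have h1 : ((k : ℝ) + 1) / nj n j ≤ 1 := by
      rw [div_le_one h0]
      exact_mod_cast h
    have h2 : ((1 : ℝ) / 2) ^ (j + 1) ≤ 1 / 2 := by
      rw [pow_succ]
      have : ((1 : ℝ) / 2) ^ j ≤ 1 := pow_le_one₀ (by norm_num) (by norm_num)
      linarith
    have h3 : (0 : ℝ) ≤ ((k : ℝ) + 1) / nj n j := by positivity
    have h4 : (0 : ℝ) ≤ ((1 : ℝ) / 2) ^ (j + 1) := by positivity
    nlinarith
  · have h0 : 0 < n - nj n j := by omega
    have h0' : (0 : ℝ) < ((n - nj n j : ℕ) : ℝ) := by exact_mod_cast h0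
    have h1 : (((k - nj n j : ℕ) : ℝ) + 1) / ((n - nj n j : ℕ) : ℝ) ≤ 1 := by
      rw [div_le_one h0']
      have : k - nj n j + 1 ≤ n - nj n j := by omega
      exact_mod_cast this
    linarith

/-- clamped position of `t` inside the dyadic interval number `j` -/
noncomputable def rho (j : ℕ) (t : ℝ) : ℝ := clamp (t / (1 / 2) ^ (j + 1) - 1)

theorem count_bb {n j : ℕ} (hn : 8 ≤ n) (hj : 1 ≤ j) (t : ℝ) :
    (#{k : Fin n | bb n j k ≤ t} : ℝ) ≤ nj n j * rho j t + (n - nj n j : ℕ) * rho 0 t := by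
  have h1 : (#{k : Fin n | bb n j k ≤ t} : ℝ) =
      ∑ k ∈ range n, if bb n j k ≤ t then (1 : ℝ) else 0 := by
    rw [← Fin.sum_univ_eq_sum_range (fun k => if bb n j k ≤ t then (1 : ℝ) else 0), ← sum_filter,
      sum_const, nsmul_eq_mul, mul_one]
  have h2 := nj_le hn hj
  have h4 : ∑ k ∈ range n, (if bb n j k ≤ t then (1 : ℝ) else 0) =
      ∑ k ∈ range (nj n j), (if bb n j k ≤ t then (1 : ℝ) else 0) +
      ∑ k ∈ range (n - nj n j), (if bb n j (nj n j + k) ≤ t then (1 : ℝ) else 0) := by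
    rw [← sum_range_add, show nj n j + (n - nj n j) = n by omega]
  have e1 : ∀ k ∈ range (nj n j), (if bb n j k ≤ t then (1 : ℝ) else 0) =
      if (1 / 2) ^ (j + 1) * (1 + ((k : ℝ) + 1) / nj n j) ≤ t then (1 : ℝ) else 0 := by
    intro k hk
    unfold bb
    rw [if_pos (mem_range.mp hk)]
  have e2 : ∀ k ∈ range (n - nj n j), (if bb n j (nj n j + k) ≤ t then (1 : ℝ) else 0) =
      if (1 / 2) ^ (0 + 1) * (1 + ((k : ℝ) + 1) / ((n - nj n j : ℕ) : ℝ)) ≤ t then (1 : ℝ)
        else 0 := by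
    intro k _
    have hb : bb n j (nj n j + k) =
        (1 / 2) ^ (0 + 1) * (1 + ((k : ℝ) + 1) / ((n - nj n j : ℕ) : ℝ)) := by
      unfold bb
      rw [if_neg (by omega), show nj n j + k - nj n j = k by omega, zero_add, pow_one]
    rw [hb]
  rw [h1, h4, sum_congr rfl e1, sum_congr rfl e2]
  exact add_le_add (count_le _ _ _ (by positivity)) (count_le _ _ _ (by positivity))

theorem prod_bb {n j : ℕ} (hn : 8 ≤ n) (hj : 1 ≤ j) :
    ∏ k : Fin n, bb n j k ≤ 128 * Real.exp (-(n : ℝ)) * (1 / 2) ^ j := by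
  have h2 := nj_le hn hj
  have h4 : ∏ k ∈ range n, bb n j k =
      (∏ k ∈ range (nj n j), bb n j k) * ∏ k ∈ range (n - nj n j), bb n j (nj n j + k) := by
    rw [← prod_range_add, show nj n j + (n - nj n j) = n by omega]
  have e1 : ∏ k ∈ range (nj n j), bb n j k = ((1 / 2) ^ (j + 1)) ^ (nj n j) * PP (nj n j) := by
    unfold PP
    rw [← card_range (nj n j), ← prod_const, card_range, ← prod_mul_distrib]
    apply prod_congr rfl
    intro k hk
    unfold bb
    rw [if_pos (mem_range.mp hk)]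
  have e2 : ∏ k ∈ range (n - nj n j), bb n j (nj n j + k) =
      (1 / 2) ^ (n - nj n j) * PP (n - nj n j) := by
    unfold PP
    rw [← card_range (n - nj n j), ← prod_const, card_range, ← prod_mul_distrib]
    apply prod_congr rfl
    intro k _
    unfold bb
    rw [if_neg (by omega), show nj n j + k - nj n j = k by omega]
  rw [Fin.prod_univ_eq_prod_range (fun k => bb n j k), h4, e1, e2]
  set a := nj n j with ha
  set d := n - a with hd
  have had : a + d = n := by omega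
  have h5 := PP_le a
  have h6 := PP_le d
  have he : 0 < Real.exp 1 := Real.exp_pos 1
  have hs : √(2 : ℝ) * √2 = 2 := Real.mul_self_sqrt (by norm_num)
  have h7 : PP a * PP d ≤ 2 * (4 / Real.exp 1) ^ n := by
    calc PP a * PP d ≤ (√2 * (4 / Real.exp 1) ^ a) * (√2 * (4 / Real.exp 1) ^ d) :=
          mul_le_mul h5 h6 (PP_nonneg _) (by positivity)
      _ = (√2 * √2) * ((4 / Real.exp 1) ^ a * (4 / Real.exp 1) ^ d) := by ring
      _ = _ := by rw [hs, ← pow_add, had]
  have h8 : ((1 : ℝ) / 2) ^ (j * a) ≤ 64 * (1 / 2) ^ (n + j) := by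
    have h9 := mul_nj_ge hn hj
    have h10 : ((1 : ℝ) / 2) ^ (j * a + 6) ≤ (1 / 2) ^ (n + j) :=
      pow_le_pow_of_le_one (by norm_num) (by norm_num) h9
    rw [pow_add] at h10
    norm_num at h10 ⊢
    linarith
  calc ((1 / 2) ^ (j + 1)) ^ a * PP a * ((1 / 2) ^ d * PP d) =
        (1 / 2) ^ (j * a) * (1 / 2) ^ n * (PP a * PP d) := by
        rw [← had, ← pow_mul, add_mul, one_mul, pow_add _ (j * a) a, pow_add _ a d]
        ring
    _ ≤ (64 * (1 / 2) ^ (n + j)) * (1 / 2) ^ n * (2 * (4 / Real.exp 1) ^ n) := by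
        apply mul_le_mul _ h7 (mul_nonneg (PP_nonneg _) (PP_nonneg _)) (by positivity)
        exact mul_le_mul_of_nonneg_right h8 (by positivity)
    _ = 128 * Real.exp (-(n : ℝ)) * (1 / 2) ^ j := by
        have h11 : Real.exp (-(n : ℝ)) = (1 / 2) ^ n * (1 / 2) ^ n * (4 / Real.exp 1) ^ n := by
          rw [← mul_pow, ← mul_pow]
          have : (1 : ℝ) / 2 * (1 / 2) * (4 / Real.exp 1) = Real.exp (-1) := by
            rw [Real.exp_neg]
            field_simp
            norm_num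
          rw [this, ← Real.exp_nat_mul]
          congr 1
          ring
        rw [h11, pow_add]
        ring

/-- dyadic decomposition of `[0, t]` -/
theorem dyadic (t : ℝ) (ht0 : 0 ≤ t) (ht1 : t ≤ 1) (J : ℕ) :
    ∑ j ∈ range (J + 1), (1 / 2 : ℝ) ^ (j + 1) * rho j t = max 0 (t - (1 / 2) ^ (J + 1)) := by
  have hr : ∀ j : ℕ, (1 / 2 : ℝ) ^ (j + 1) * rho j t =
      max 0 (min ((1 / 2) ^ (j + 1)) (t - (1 / 2) ^ (j + 1))) := by
    intro j
    have h0 : (0 : ℝ) < (1 / 2) ^ (j + 1) := by positivity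
    unfold rho clamp
    rw [mul_max_of_nonneg _ _ h0.le, mul_min_of_nonneg _ _ h0.le, mul_zero, mul_one]
    congr 2
    field_simp
  induction J with
  | zero =>
    rw [sum_range_one, hr 0]
    congr 1
    apply min_eq_right
    norm_num
    linarith
  | succ J ih =>
    rw [sum_range_succ, ih, hr (J + 1)]
    have h1 : (1 / 2 : ℝ) ^ (J + 1) = 2 * (1 / 2) ^ (J + 1 + 1) := by
      rw [pow_succ _ (J + 1)]
      ring
    rw [h1]
    have h0 : (0 : ℝ) < (1 / 2) ^ (J + 1 + 1) := by positivity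
    set c := (1 / 2 : ℝ) ^ (J + 1 + 1)
    rcases le_total t (2 * c) with h | h
    · rw [max_eq_left (by linarith), zero_add, min_eq_right (by linarith)]
    · rw [max_eq_right (by linarith), min_eq_left (by linarith), max_eq_right h0.le,
        max_eq_right (by linarith)]
      ring

theorem sum_half (J : ℕ) : ∑ j ∈ range J, (1 / 2 : ℝ) ^ (j + 2) = 1 / 2 - (1 / 2) ^ (J + 1) := by
  induction J with
  | zero => norm_num
  | succ J ih =>
    rw [sum_range_succ, ih]
    ring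

/-- unnormalised mass of class `j` -/
noncomputable def wt (n j : ℕ) : ℝ := (1 / 2) ^ (j + 1) / nj n j

theorem wt_pos (n j : ℕ) : 0 < wt n j := by
  have h0 : (0 : ℝ) < nj n j := by exact_mod_cast nj_pos n j
  unfold wt
  positivity

theorem sum_closed (n : ℝ) (hn : n ≠ 0) (J : ℕ) :
    ∑ i ∈ range J, (1 / 2 : ℝ) ^ (i + 2) * (((i : ℝ) + 1) * (1 - (2 * ((i : ℝ) + 1) - 7) / n)) =
      1 - (J + 2) * (1 / 2) ^ (J + 1) + (1 + (1 / 2) ^ J * ((J : ℝ) ^ 2 + J / 2 - 1)) / n := by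
  induction J with
  | zero => norm_num
  | succ J ih =>
    rw [sum_range_succ, ih]
    push_cast
    field_simp
    ring

theorem one_le_sum_wt {n : ℕ} (hn : 8 ≤ n) : 1 ≤ (n : ℝ) * ∑ i ∈ range n, wt n (i + 1) := by
  have hn' : (0 : ℝ) < n := by
    have : 0 < n := by omega
    exact_mod_cast this
  have h1 : ∀ i ∈ range n, (1 / 2 : ℝ) ^ (i + 2) *
      (((i : ℝ) + 1) * (1 - (2 * ((i : ℝ) + 1) - 7) / n)) ≤ n * wt n (i + 1) := by
    intro i hi
    have h0 : (0 : ℝ) < nj n (i + 1) := by exact_mod_cast nj_pos n (i + 1)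
    unfold wt
    rw [show i + 1 + 1 = i + 2 by ring]
    have hc : (0 : ℝ) < (1 / 2) ^ (i + 2) := by positivity
    rw [mul_div_assoc', le_div_iff₀ h0]
    have h2 := mul_nj_le hn (show 1 ≤ i + 1 by omega)
    have h3 : ((i : ℝ) + 1) * nj n (i + 1) + 7 ≤ n + 2 * ((i : ℝ) + 1) := by exact_mod_cast h2
    have h4 : (((i : ℝ) + 1) * (1 - (2 * ((i : ℝ) + 1) - 7) / n)) * nj n (i + 1) ≤ n := by
      set y := 2 * ((i : ℝ) + 1) - 7 with hy
      have h5 : ((i : ℝ) + 1) * nj n (i + 1) ≤ n + y := by linarith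
      have hi0 : (0 : ℝ) ≤ i := by positivity
      have h6 : (((i : ℝ) + 1) * (1 - y / n)) * nj n (i + 1) =
          (((i : ℝ) + 1) * nj n (i + 1)) * ((n - y) / n) := by
        field_simp
      rw [h6, mul_div_assoc', div_le_iff₀ hn']
      rcases le_total (n - y) 0 with h7 | h7
      · have : (((i : ℝ) + 1) * nj n (i + 1)) * (n - y) ≤ 0 :=
          mul_nonpos_of_nonneg_of_nonpos (by positivity) h7
        nlinarith
      · have := mul_le_mul_of_nonneg_right h5 h7
        nlinarith [sq_nonneg y]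
    calc (1 / 2 : ℝ) ^ (i + 2) * (((i : ℝ) + 1) * (1 - (2 * ((i : ℝ) + 1) - 7) / n)) * nj n (i + 1)
        = (1 / 2 : ℝ) ^ (i + 2) *
          ((((i : ℝ) + 1) * (1 - (2 * ((i : ℝ) + 1) - 7) / n)) * nj n (i + 1)) := by ring
      _ ≤ (1 / 2 : ℝ) ^ (i + 2) * n := mul_le_mul_of_nonneg_left h4 hc.le
      _ = _ := by ring
  have h2 := sum_le_sum h1
  rw [sum_closed _ hn'.ne', ← mul_sum] at h2
  refine le_trans ?_ h2
  have h3 : (n : ℝ) * (n + 2) ≤ 2 ^ (n + 1) := by
    have : ∀ m : ℕ, 8 ≤ m → m * (m + 2) ≤ 2 ^ (m + 1) := by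
      intro m hm
      induction m, hm using Nat.le_induction with
      | base => norm_num
      | succ m hm ih =>
        rw [pow_succ]
        nlinarith
    exact_mod_cast this n hn
  have h4 : (0 : ℝ) < (1 / 2) ^ (n + 1) := by positivity
  have h5 : (1 / 2 : ℝ) ^ (n + 1) * 2 ^ (n + 1) = 1 := by
    rw [← mul_pow]
    norm_num
  have h6 : (n : ℝ) * ((n + 2) * (1 / 2) ^ (n + 1)) ≤ 1 := by
    nlinarith
  have h7 : ((n : ℝ) + 2) * (1 / 2) ^ (n + 1) ≤ 1 / n := by
    rw [le_div_iff₀ hn']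
    linarith
  have h8 : (1 : ℝ) / n ≤ (1 + (1 / 2) ^ n * ((n : ℝ) ^ 2 + n / 2 - 1)) / n := by
    apply div_le_div_of_nonneg_right _ hn'.le
    have h9 : (0 : ℝ) ≤ (1 / 2) ^ n * ((n : ℝ) ^ 2 + n / 2 - 1) := by
      have : (8 : ℝ) ≤ n := by exact_mod_cast hn
      apply mul_nonneg (by positivity)
      nlinarith
    linarith
  linarith

/-- upper bound for `1 - s_n` -/
theorem gap_le {n : ℕ} (hn : 8 ≤ n) :
    1 - (maxAgreement n).toReal ≤ 128 * n * Real.exp (-(n : ℝ)) := by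
  have hn' : (0 : ℝ) < n := by
    have : 0 < n := by omega
    exact_mod_cast this
  set W : ℝ := n * ∑ i ∈ range n, wt n (i + 1) with hW
  have hW1 : 1 ≤ W := one_le_sum_wt hn
  have hW0 : 0 < W := by linarith
  have hsum : (n : ℝ) * ∑ i : Fin n, wt n (i + 1) / W = 1 := by
    rw [← sum_div, Fin.sum_univ_eq_sum_range (fun i => wt n (i + 1)), mul_div_assoc', ← hW,
      div_self hW0.ne']
  have hmass : ∀ i : Fin n, wt n (i + 1) / W * nj n (i + 1) ≤ (1 / 2) ^ ((i : ℕ) + 2) := by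
    intro i
    have h0 : (0 : ℝ) < nj n ((i : ℕ) + 1) := by exact_mod_cast nj_pos n ((i : ℕ) + 1)
    unfold wt
    rw [div_div, mul_comm (nj n ((i : ℕ) + 1) : ℝ) W, ← div_div, div_mul_cancel₀ _ h0.ne']
    exact div_le_self (by positivity) hW1
  have hdom : ∀ t : ℝ, 0 ≤ t → t ≤ 1 →
      ∑ i : Fin n, wt n (i + 1) / W * (#{k : Fin n | bb n (i + 1) k ≤ t} : ℝ) ≤ t := by
    intro t ht0 ht1
    have hr0 : 0 ≤ rho 0 t := clamp_nonneg _
    have hr1 : rho 0 t ≤ 1 := clamp_le_one _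
    have hrj : ∀ j : ℕ, rho 0 t ≤ rho j t := by
      intro j
      unfold rho
      apply clamp_mono
      have h1 : ((1 : ℝ) / 2) ^ (j + 1) ≤ (1 / 2) ^ (0 + 1) :=
        pow_le_pow_of_le_one (by norm_num) (by norm_num) (by omega)
      have h2 : t / (1 / 2) ^ (0 + 1) ≤ t / (1 / 2) ^ (j + 1) :=
        div_le_div_of_nonneg_left ht0 (by positivity) h1
      linarith
    have h1 : ∀ i : Fin n, wt n (i + 1) / W * (#{k : Fin n | bb n (i + 1) k ≤ t} : ℝ) ≤
        (1 / 2) ^ ((i : ℕ) + 2) * (rho (i + 1) t - rho 0 t) + n * (wt n (i + 1) / W) * rho 0 t := by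
      intro i
      have hl : 0 ≤ wt n ((i : ℕ) + 1) / W := div_nonneg (wt_pos _ _).le hW0.le
      have h2 := count_bb hn (show 1 ≤ (i : ℕ) + 1 by omega) t
      have h3 := mul_le_mul_of_nonneg_left h2 hl
      refine h3.trans ?_
      have h4 := nj_le hn (show 1 ≤ (i : ℕ) + 1 by omega)
      rw [Nat.cast_sub h4]
      have h5 := mul_le_mul_of_nonneg_right (hmass i)
        (show 0 ≤ rho ((i : ℕ) + 1) t - rho 0 t by have := hrj ((i : ℕ) + 1); linarith)
      nlinarith
    have h2 := sum_le_sum fun i (_ : i ∈ (univ : Finset (Fin n))) => h1 i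
    refine h2.trans ?_
    rw [sum_add_distrib, ← sum_mul, ← mul_sum, hsum, one_mul,
      Fin.sum_univ_eq_sum_range (fun i => (1 / 2 : ℝ) ^ (i + 2) * (rho (i + 1) t - rho 0 t))]
    have h3 : ∑ i ∈ range n, (1 / 2 : ℝ) ^ (i + 2) * (rho (i + 1) t - rho 0 t) =
        ∑ i ∈ range n, (1 / 2 : ℝ) ^ (i + 2) * rho (i + 1) t -
        (∑ i ∈ range n, (1 / 2 : ℝ) ^ (i + 2)) * rho 0 t := by
      rw [sum_mul, ← sum_sub_distrib]
      apply sum_congr rfl
      intro i _
      ring
    have h4 := dyadic t ht0 ht1 n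
    rw [sum_range_succ'] at h4
    have h5 : ∑ i ∈ range n, (1 / 2 : ℝ) ^ (i + 2) * rho (i + 1) t =
        ∑ i ∈ range n, (1 / 2 : ℝ) ^ (i + 1 + 1) * rho (i + 1) t := rfl
    rw [h3, sum_half, h5]
    have h6 : ∑ i ∈ range n, (1 / 2 : ℝ) ^ (i + 1 + 1) * rho (i + 1) t =
        max 0 (t - (1 / 2) ^ (n + 1)) - (1 / 2) * rho 0 t := by
      rw [← h4]
      ring
    rw [h6]
    have h7 : max 0 (t - (1 / 2) ^ (n + 1)) + (1 / 2) ^ (n + 1) * rho 0 t ≤ t := by
      have hc : (0 : ℝ) < (1 / 2) ^ (n + 1) := by positivity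
      rcases le_total t ((1 / 2) ^ (n + 1)) with h | h
      · have hr : rho 0 t = 0 := by
          unfold rho
          apply clamp_of_nonpos
          have h8 : ((1 : ℝ) / 2) ^ (n + 1) ≤ (1 / 2) ^ (0 + 1) :=
            pow_le_pow_of_le_one (by norm_num) (by norm_num) (by omega)
          have h9 : t / (1 / 2) ^ (0 + 1) ≤ 1 := by
            rw [div_le_one (by positivity)]
            linarith
          linarith
        rw [max_eq_left (by linarith), hr]
        simpa using ht0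
      · rw [max_eq_right (by linarith)]
        nlinarith
    linarith
  have h1 := dom_bound (show 1 ≤ n by omega) (fun i : Fin n => wt n (i + 1) / W)
    (fun i k => bb n (i + 1) k) (fun i => div_pos (wt_pos _ _) hW0) (fun i k => bb_nonneg _ _ _)
    (fun i k => bb_le_one k.2) hsum hdom
  refine h1.trans ?_
  have h2 : ∑ i : Fin n, ∏ k : Fin n, bb n (i + 1) k ≤
      ∑ i : Fin n, 128 * Real.exp (-(n : ℝ)) * (1 / 2) ^ ((i : ℕ) + 1) :=
    sum_le_sum fun i _ => prod_bb hn (by omega)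
  have h3 : ∑ i : Fin n, 128 * Real.exp (-(n : ℝ)) * (1 / 2) ^ ((i : ℕ) + 1) ≤
      128 * Real.exp (-(n : ℝ)) := by
    rw [← mul_sum, Fin.sum_univ_eq_sum_range (fun i => (1 / 2 : ℝ) ^ (i + 1))]
    have h4 : ∀ J : ℕ, ∑ j ∈ range J, (1 / 2 : ℝ) ^ (j + 1) = 1 - (1 / 2) ^ J := by
      intro J
      induction J with
      | zero => norm_num
      | succ J ih =>
        rw [sum_range_succ, ih]
        ring
    rw [h4]
    have h5 : (0 : ℝ) < (1 / 2) ^ n := by positivity
    have h6 := Real.exp_pos (-(n : ℝ))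
    nlinarith
  calc (n : ℝ) * ∑ i : Fin n, ∏ k : Fin n, bb n (i + 1) k ≤ n * (128 * Real.exp (-(n : ℝ))) :=
        mul_le_mul_of_nonneg_left (h2.trans h3) hn'.le
    _ = _ := by ring

end Pool.Agent.Helper45.CR
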