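import Pool.Agent.Helper3.Cop.Latin

set_option autoImplicit false

namespace Pool.Agent.Helper45.CR

open MeasureTheory Finset Pool.Agent.Helper43.Copula Pool.Agent.Helper3.Cop

/-- consecutive intervals tile: finite set in a linear order -/
theorem tile_finset {A : Type*} [LinearOrder A] (m : A → ℝ) (hm : ∀ a, 0 ≤ m a) (x : ℝ)
    (hx : 0 ≤ x) (s : Finset A) :
    ∑ a ∈ s, max 0 (min (m a) (x - ∑ b ∈ s with b < a, m b)) = min x (∑ a ∈ s, m a) := by
  classical
  induction s using Finset.induction_on_max with
  | empty => simp [hx]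
  | insert a s ha ih =>
    have has : a ∉ s := fun h => lt_irrefl _ (ha a h)
    rw [sum_insert has, sum_insert has]
    have h1 : ∀ c ∈ s, (insert a s).filter (fun b => b < c) = s.filter (fun b => b < c) := by
      intro c hc
      rw [filter_insert, if_neg (not_lt.mpr (ha c hc).le)]
    have h2 : (insert a s).filter (fun b => b < a) = s := by
      rw [filter_insert, if_neg (lt_irrefl a)]
      exact filter_true_of_mem ha
    have h3 : ∑ c ∈ s, max 0 (min (m c) (x - ∑ b ∈ insert a s with b < c, m b)) =
        min x (∑ a ∈ s, m a) := by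
      rw [← ih]
      exact sum_congr rfl fun c hc => by rw [h1 c hc]
    rw [h2, h3]
    set T := ∑ b ∈ s, m b
    have hma := hm a
    rcases le_total x T with h | h
    · rw [min_eq_left h, min_eq_right (by linarith : x - T ≤ m a), max_eq_left (by linarith),
        min_eq_left (by linarith)]
      ring
    · rcases le_total (x - T) (m a) with h' | h'
      · rw [min_eq_right h, min_eq_right h', max_eq_right (by linarith), min_eq_left (by linarith)]
        ring
      · rw [min_eq_right h, min_eq_left h', max_eq_right hma, min_eq_right (by linarith)]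

/-- consecutive intervals tile, with a key function -/
theorem tile_key {A B : Type*} [Fintype A] [LinearOrder B] (key : A → B)
    (hk : Function.Injective key) (m : A → ℝ) (hm : ∀ a, 0 ≤ m a) (x : ℝ) (hx : 0 ≤ x) :
    ∑ a, max 0 (min (m a) (x - ∑ b with key b < key a, m b)) = min x (∑ a, m a) := by
  classical
  let _ : LinearOrder A := LinearOrder.lift' key hk
  have h := tile_finset m hm x hx (univ : Finset A)
  rw [← h]
  apply sum_congr rfl
  intro a _
  congr 3

variable {n : ℕ}

section
variable {I : Type} [Fintype I] (lam : I → ℝ) (b : I → Fin n → ℝ)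

/-- sorting key of an atom -/
noncomputable def key (α : I × Fin n) : ℝ ×ₗ Fin (Fintype.card (I × Fin n)) :=
  toLex (b α.1 α.2, Fintype.equivFin (I × Fin n) α)

theorem key_inj : Function.Injective (key b) := by
  intro α β h
  unfold key at h
  have h1 := congrArg (fun z => (ofLex z).2) h
  exact (Fintype.equivFin (I × Fin n)).injective h1

open Classical in
/-- start of the interval of an atom -/
noncomputable def start (α : I × Fin n) : ℝ :=
  ∑ β : I × Fin n with key b β < key b α, lam β.1

/-- distribution function of the uniform distribution on the interval of an atom, reflected -/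
noncomputable def G (α : I × Fin n) (x : ℝ) : ℝ :=
  1 - clamp (((1 - x) - start lam b α) / lam α.1)

theorem G_nonneg (α : I × Fin n) (x : ℝ) : 0 ≤ G lam b α x := by
  have := clamp_le_one (((1 - x) - start lam b α) / lam α.1)
  unfold G
  linarith

theorem G_le_one (α : I × Fin n) (x : ℝ) : G lam b α x ≤ 1 := by
  have := clamp_nonneg (((1 - x) - start lam b α) / lam α.1)
  unfold G
  linarith

theorem G_mono (hlam : ∀ i, 0 < lam i) (α : I × Fin n) {x y : ℝ} (h : x ≤ y) :
    G lam b α x ≤ G lam b α y := by
  unfold G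
  have h1 : ((1 - y) - start lam b α) / lam α.1 ≤ ((1 - x) - start lam b α) / lam α.1 :=
    div_le_div_of_nonneg_right (by linarith) (hlam _).le
  have := clamp_mono h1
  linarith

theorem start_nonneg (hlam : ∀ i, 0 < lam i) (α : I × Fin n) : 0 ≤ start lam b α :=
  sum_nonneg fun _ _ => (hlam _).le

/-- the end of the interval of an atom is at most the mass of the atoms with smaller or equal
value -/
theorem start_add_le (hlam : ∀ i, 0 < lam i) (α : I × Fin n) :
    start lam b α + lam α.1 ≤ ∑ i, lam i * #{k | b i k ≤ b α.1 α.2} := by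
  classical
  have h1 : ∑ i, lam i * #{k | b i k ≤ b α.1 α.2} =
      ∑ β : I × Fin n with b β.1 β.2 ≤ b α.1 α.2, lam β.1 := by
    rw [sum_filter, Fintype.sum_prod_type]
    apply sum_congr rfl
    intro i _
    rw [← sum_filter]
    change lam i * (#{k | b i k ≤ b α.1 α.2} : ℝ) = ∑ k with b i k ≤ b α.1 α.2, lam i
    rw [sum_const, nsmul_eq_mul, mul_comm]
  rw [h1]
  unfold start
  have hα : α ∉ (univ.filter fun β : I × Fin n => key b β < key b α) := by simp
  have h2 : insert α (univ.filter fun β : I × Fin n => key b β < key b α) ⊆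
      univ.filter fun β : I × Fin n => b β.1 β.2 ≤ b α.1 α.2 := by
    intro β hβ
    rw [mem_insert, mem_filter] at hβ
    rw [mem_filter]
    refine ⟨mem_univ _, ?_⟩
    rcases hβ with rfl | ⟨_, h⟩
    · exact le_rfl
    · unfold key at h
      rw [Prod.Lex.toLex_lt_toLex] at h
      rcases h with h | h
      · exact h.le
      · exact h.1.le
  calc _ = ∑ β ∈ insert α (univ.filter fun β : I × Fin n => key b β < key b α), lam β.1 := by
        rw [sum_insert hα, add_comm]
    _ ≤ _ := sum_le_sum_of_subset_of_nonneg h2 fun β _ _ => (hlam _).le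

theorem lam_G (hlam : ∀ i, 0 < lam i) (α : I × Fin n) (x : ℝ) :
    lam α.1 * G lam b α x = lam α.1 - max 0 (min (lam α.1) ((1 - x) - start lam b α)) := by
  have h0 := hlam α.1
  unfold G clamp
  rw [mul_sub, mul_one]
  congr 1
  rw [mul_max_of_nonneg _ _ h0.le, mul_min_of_nonneg _ _ h0.le, mul_zero, mul_one]
  congr 2
  field_simp

theorem sum_lam_G (hlam : ∀ i, 0 < lam i) (hsum : (n : ℝ) * ∑ i, lam i = 1) {x : ℝ}
    (hx0 : 0 ≤ x) (hx1 : x ≤ 1) : ∑ α : I × Fin n, lam α.1 * G lam b α x = x := by
  classical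
  have h1 := tile_key (key b) (key_inj b) (fun α : I × Fin n => lam α.1)
    (fun α => (hlam _).le) (1 - x) (by linarith)
  have h2 : ∑ α : I × Fin n, lam α.1 = 1 := by
    rw [Fintype.sum_prod_type, ← hsum, mul_sum]
    apply sum_congr rfl
    intro i _
    simp
  rw [sum_congr rfl fun α _ => lam_G lam b hlam α x, sum_sub_distrib, h2]
  have h3 : ∑ α : I × Fin n, max 0 (min (lam α.1) ((1 - x) - start lam b α)) = 1 - x := by
    rw [h2, min_eq_left (by linarith)] at h1
    rw [← h1]
    apply sum_congr rfl
    intro α _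
    unfold start
    congr 4
  rw [h3]
  ring

variable [NeZero n]

/-- the copula -/
noncomputable def dc (x : Fin n → ℝ) : ℝ :=
  ∑ i : I, ∑ s : Fin n, lam i * ∏ k, G lam b (i, k + s) (x k)

theorem dc_eq (x : Fin n → ℝ) : dc lam b x =
    ∑ p : I × Fin n, lam p.1 * ∏ k, G lam b (p.1, k + p.2) (x k) := by
  unfold dc
  rw [Fintype.sum_prod_type]

theorem boxVolume_smul (G' : (Fin n → ℝ) → ℝ) (c : ℝ) (u v : Fin n → ℝ) :
    boxVolume (fun x => c * G' x) u v = c * boxVolume G' u v := by
  unfold boxVolume
  rw [mul_sum]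
  apply sum_congr rfl
  intro s _
  ring

theorem isCopula_dc (hlam : ∀ i, 0 < lam i) (hsum : (n : ℝ) * ∑ i, lam i = 1)
    (hend : ∀ α : I × Fin n, start lam b α + lam α.1 ≤ 1) :
    IsCopula n (dc lam b) where
  range := by
    intro x hx
    have h0 : ∀ p : I × Fin n, 0 ≤ ∏ k, G lam b (p.1, k + p.2) (x k) := fun p =>
      prod_nonneg fun k _ => G_nonneg _ _ _ _
    have h1 : ∀ p : I × Fin n, ∏ k, G lam b (p.1, k + p.2) (x k) ≤ 1 := fun p =>
      prod_le_one (fun k _ => G_nonneg _ _ _ _) fun k _ => G_le_one _ _ _ _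
    rw [dc_eq]
    constructor
    · exact sum_nonneg fun p _ => mul_nonneg (hlam _).le (h0 p)
    · calc ∑ p : I × Fin n, lam p.1 * ∏ k, G lam b (p.1, k + p.2) (x k) ≤
          ∑ p : I × Fin n, lam p.1 := sum_le_sum fun p _ => by
            have := mul_le_mul_of_nonneg_left (h1 p) (hlam p.1).le
            linarith
        _ = 1 := by
            rw [Fintype.sum_prod_type, ← hsum, mul_sum]
            apply sum_congr rfl
            intro i _
            simp
  grounded := by
    rintro x - ⟨k, hk⟩
    rw [dc_eq, sum_eq_zero]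
    intro p _
    have h1 : G lam b (p.1, k + p.2) (x k) = 0 := by
      unfold G
      rw [hk, clamp_of_one_le, sub_self]
      rw [le_div_iff₀ (hlam _)]
      have := hend (p.1, k + p.2)
      simp only at this ⊢
      linarith
    rw [prod_eq_zero (mem_univ k) h1, mul_zero]
  margin := by
    intro x hx k hk
    have h1 : ∀ p : I × Fin n, ∏ l, G lam b (p.1, l + p.2) (x l) = G lam b (p.1, k + p.2) (x k) := by
      intro p
      rw [← mul_prod_erase _ _ (mem_univ k), prod_eq_one, mul_one]
      intro l hl
      rw [hk l (ne_of_mem_erase hl)]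
      unfold G
      rw [clamp_of_nonpos, sub_zero]
      apply div_nonpos_of_nonpos_of_nonneg _ (hlam _).le
      have := start_nonneg lam b hlam (p.1, l + p.2)
      linarith
    rw [dc_eq, sum_congr rfl fun p _ => by rw [h1 p]]
    have h2 : ∑ p : I × Fin n, lam p.1 * G lam b (p.1, k + p.2) (x k) =
        ∑ α : I × Fin n, lam α.1 * G lam b α (x k) := by
      rw [Fintype.sum_prod_type, Fintype.sum_prod_type]
      apply sum_congr rfl
      intro i _
      exact Fintype.sum_bijective (fun s : Fin n => k + s) (AddGroup.addLeft_bijective k)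
        (fun s => lam i * G lam b (i, k + s) (x k)) (fun s => lam i * G lam b (i, s) (x k))
        fun s => rfl
    rw [h2]
    exact sum_lam_G lam b hlam hsum (hx k).1 (hx k).2
  increasing := by
    intro u _ v _ huv
    have h : boxVolume (dc lam b) u v = ∑ p : I × Fin n,
        lam p.1 * boxVolume (fun x => ∏ k, G lam b (p.1, k + p.2) (x k)) u v := by
      have h1 : dc lam b = fun x => (1 : ℝ) * ∑ p : I × Fin n,
          lam p.1 * ∏ k, G lam b (p.1, k + p.2) (x k) := by
        funext x
        rw [dc_eq, one_mul]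
      rw [h1, boxVolume_sum univ, one_mul]
      apply sum_congr rfl
      intro p _
      rw [boxVolume_smul]
    rw [h]
    refine sum_nonneg fun p _ => mul_nonneg (hlam _).le ?_
    rw [boxVolume_prod]
    exact prod_nonneg fun k _ => sub_nonneg.mpr (G_mono lam b hlam _ (huv k))

end

/-- **Dominance bound.** -/
theorem dom_bound (hn : 1 ≤ n) {I : Type} [Fintype I] (lam : I → ℝ) (b : I → Fin n → ℝ)
    (hlam : ∀ i, 0 < lam i) (hb0 : ∀ i k, 0 ≤ b i k) (hb1 : ∀ i k, b i k ≤ 1)
    (hsum : (n : ℝ) * ∑ i, lam i = 1)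
    (hdom : ∀ t : ℝ, 0 ≤ t → t ≤ 1 → ∑ i, lam i * #{k | b i k ≤ t} ≤ t) :
    1 - (maxAgreement n).toReal ≤ n * ∑ i, ∏ k, b i k := by
  have : NeZero n := ⟨by omega⟩
  have hend : ∀ α : I × Fin n, start lam b α + lam α.1 ≤ b α.1 α.2 := fun α =>
    (start_add_le lam b hlam α).trans (hdom _ (hb0 _ _) (hb1 _ _))
  have hC := isCopula_dc lam b hlam hsum fun α => (hend α).trans (hb1 _ _)
  set D : I × Fin n → Set (Fin n → ℝ) := fun p =>
    Set.Icc (fun k => 1 - b p.1 (k + p.2)) (fun _ => 1) with hD
  have hvolD : ∀ p : I × Fin n, volume (D p) = ENNReal.ofReal (∏ k, b p.1 k) := by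
    intro p
    simp only [hD]
    rw [Real.volume_Icc_pi, ← ENNReal.ofReal_prod_of_nonneg]
    · congr 1
      have h1 : ∀ k : Fin n, 1 - (1 - b p.1 (k + p.2)) = b p.1 (k + p.2) := fun k => by ring
      rw [prod_congr rfl fun k _ => h1 k]
      exact Fintype.prod_bijective (fun k : Fin n => k + p.2) (AddGroup.addRight_bijective p.2) _ _
        fun s => rfl
    · intro k _
      have := hb0 p.1 (k + p.2)
      linarith
  have hprod : ∀ p : I × Fin n, 0 ≤ ∏ k, b p.1 k := fun p => prod_nonneg fun k _ => hb0 _ _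
  set A : Set (Fin n → ℝ) := cube n \ ⋃ p, D p with hA
  have hmeas : MeasurableSet (⋃ p, D p) := MeasurableSet.iUnion fun p => measurableSet_Icc
  have hvol : volume (⋃ p, D p) ≤ ENNReal.ofReal (n * ∑ i, ∏ k, b i k) := by
    refine (measure_iUnion_fintype_le _ _).trans ?_
    have h1 : (n : ℝ) * ∑ i, ∏ k, b i k = ∑ p : I × Fin n, ∏ k, b p.1 k := by
      rw [Fintype.sum_prod_type, mul_sum]
      apply sum_congr rfl
      intro i _
      simp
    rw [h1, ENNReal.ofReal_sum_of_nonneg fun p _ => hprod p]
    exact sum_le_sum fun p _ => (hvolD p).le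
  have h1 : volume A ≤ maxAgreement n := by
    apply le_sSup
    refine ⟨A, Set.sdiff_subset, isClosed_cube.measurableSet.diff hmeas, ⟨dc lam b, hC, ?_⟩, rfl⟩
    rintro x ⟨hx, hx'⟩
    have h0 : dc lam b x = 0 := by
      rw [dc_eq, sum_eq_zero]
      intro p _
      have h2 : ∃ k, x k < 1 - b p.1 (k + p.2) := by
        by_contra hcon
        push Not at hcon
        exact hx' (Set.mem_iUnion.mpr ⟨p, ⟨fun k => hcon k, fun k => (hx k).2⟩⟩)
      obtain ⟨k, hk⟩ := h2
      have h3 : G lam b (p.1, k + p.2) (x k) = 0 := by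
        unfold G
        rw [clamp_of_one_le, sub_self]
        rw [le_div_iff₀ (hlam _)]
        have := hend (p.1, k + p.2)
        simp only at this ⊢
        linarith
      rw [prod_eq_zero (mem_univ k) h3, mul_zero]
    refine le_antisymm ?_ (lowerFrechet_le hn hC hx)
    rw [h0]
    exact le_max_right _ _
  have h2 : volume (cube n) ≤ volume A + volume (⋃ p, D p) := by
    refine (measure_mono ?_).trans (measure_union_le _ _)
    intro x hx
    by_cases h : x ∈ ⋃ p, D p
    · exact Or.inr h
    · exact Or.inl ⟨hx, h⟩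
  rw [volume_cube] at h2
  have h3 : (1 : ENNReal) ≤ maxAgreement n + ENNReal.ofReal (n * ∑ i, ∏ k, b i k) :=
    h2.trans (add_le_add h1 hvol)
  have h4 := ENNReal.toReal_mono (ENNReal.add_ne_top.mpr
    ⟨maxAgreement_ne_top, ENNReal.ofReal_ne_top⟩) h3
  rw [ENNReal.toReal_add maxAgreement_ne_top ENNReal.ofReal_ne_top,
    ENNReal.toReal_ofReal (mul_nonneg (by positivity)
      (sum_nonneg fun i _ => prod_nonneg fun k _ => hb0 _ _))] at h4
  simp only [ENNReal.toReal_one] at h4
  linarith

end Pool.Agent.Helper45.CR
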