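import Pool.Agent.Helper45.CR.Low
import Pool.Agent.Helper45.CR.Cls

set_option autoImplicit false

namespace Pool.Agent.Helper45.CR

open MeasureTheory Finset Filter Topology Asymptotics Pool.Agent.Helper43.Copula
  Pool.Agent.Helper3.Cop

variable {n : ℕ}

/-- upper bound for the volume of the agreement set -/
theorem volume_agree_le' (hn : 1 ≤ n) {C : (Fin n → ℝ) → ℝ} (hC : IsCopula n C)
    {A : Set (Fin n → ℝ)} (hA : A ⊆ cube n) (hAC : ∀ x ∈ A, C x = lowerFrechet n x) :
    volume A ≤ ENNReal.ofReal (1 - ((n : ℝ) + 2) / 2 * Real.exp (-(n : ℝ)) + 1 / n.factorial) := by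
  set S : Set (Fin n → ℝ) := (fun x => (fun _ => 1) - x) ⁻¹' simplex n 1 with hS
  have hSvol : volume S ≤ ENNReal.ofReal (1 / n.factorial) := by
    have h1 : volume S = volume (simplex n 1) := by
      rw [hS]
      exact (Measure.measurePreserving_sub_left volume (fun _ : Fin n => (1 : ℝ))).measure_preimage
        (measurableSet_simplex n 1).nullMeasurableSet
    rw [h1]
    have := volume_simplex n 1 zero_le_one
    simpa using this
  have hsub : A ⊆ (cube n \ posSet n C) ∪ S := by
    intro x hx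
    by_cases hpos : 0 < C x
    · right
      have h1 := hAC x hx
      rw [h1] at hpos
      unfold lowerFrechet at hpos
      have h2 : 0 < ∑ k, x k - n + 1 := by
        by_contra hc
        push Not at hc
        rw [max_eq_right hc] at hpos
        exact lt_irrefl _ hpos
      refine ⟨fun k => ?_, ?_⟩
      · have := (hA hx k).2
        simpa using this
      · simp only [Pi.sub_apply, sum_sub_distrib]
        simp
        linarith
    · left
      exact ⟨hA hx, fun h => hpos h.2⟩
  have hle1 : (volume (posSet n C)).toReal ≤ 1 := by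
    have := ENNReal.toReal_mono (by rw [volume_cube]; simp) (measure_mono (μ := volume)
      (posSet_subset C))
    rwa [volume_cube, ENNReal.toReal_one] at this
  have hlow := exp_le_volume' hn hC
  have h1 : volume (cube n \ posSet n C) ≤
      ENNReal.ofReal (1 - ((n : ℝ) + 2) / 2 * Real.exp (-(n : ℝ))) := by
    rw [measure_sdiff (posSet_subset C) (measurableSet_posSet hC).nullMeasurableSet
      (volume_posSet_ne_top C), volume_cube, ENNReal.ofReal_sub _ (by positivity),
      ENNReal.ofReal_one]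
    apply tsub_le_tsub_left
    rw [← ENNReal.ofReal_toReal (volume_posSet_ne_top C)]
    exact ENNReal.ofReal_le_ofReal hlow
  calc volume A ≤ volume ((cube n \ posSet n C) ∪ S) := measure_mono hsub
    _ ≤ volume (cube n \ posSet n C) + volume S := measure_union_le _ _
    _ ≤ ENNReal.ofReal (1 - ((n : ℝ) + 2) / 2 * Real.exp (-(n : ℝ))) +
        ENNReal.ofReal (1 / n.factorial) := add_le_add h1 hSvol
    _ = _ := by
        rw [← ENNReal.ofReal_add _ (by positivity)]
        linarith

theorem gap_ge (hn : 1 ≤ n) :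
    ((n : ℝ) + 2) / 2 * Real.exp (-(n : ℝ)) - 1 / n.factorial ≤ 1 - (maxAgreement n).toReal := by
  have h1 : maxAgreement n ≤
      ENNReal.ofReal (1 - ((n : ℝ) + 2) / 2 * Real.exp (-(n : ℝ)) + 1 / n.factorial) := by
    unfold maxAgreement
    apply sSup_le
    rintro m ⟨A, hA, -, ⟨C, hC, hCA⟩, rfl⟩
    exact volume_agree_le' hn hC hA hCA
  have h0 : 0 ≤ 1 - ((n : ℝ) + 2) / 2 * Real.exp (-(n : ℝ)) + 1 / (n.factorial : ℝ) := by
    have hC := isCopula_latin hn
    have h2 := exp_le_volume' hn hC
    have hle1 : (volume (posSet n (latin n))).toReal ≤ 1 := by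
      have := ENNReal.toReal_mono (by rw [volume_cube]; simp) (measure_mono (μ := volume)
        (posSet_subset (latin n)))
      rwa [volume_cube, ENNReal.toReal_one] at this
    have : (0 : ℝ) ≤ 1 / (n.factorial : ℝ) := by positivity
    linarith
  have h2 := ENNReal.toReal_mono ENNReal.ofReal_ne_top h1
  rw [ENNReal.toReal_ofReal h0] at h2
  linarith

theorem exp_le_factorial {n : ℕ} (hn : 6 ≤ n) : Real.exp (n : ℝ) ≤ n.factorial := by
  induction n, hn using Nat.le_induction with
  | base =>
    have h1 : Real.exp ((6 : ℕ) : ℝ) = Real.exp 1 ^ 6 := by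
      rw [← Real.exp_nat_mul]
      simp
    rw [h1]
    have h2 := Real.exp_one_lt_d9
    have h3 : Real.exp 1 ^ 6 ≤ (2.7182818286 : ℝ) ^ 6 :=
      pow_le_pow_left₀ (Real.exp_pos 1).le h2.le 6
    refine h3.trans ?_
    norm_num [Nat.factorial]
  | succ n hn ih =>
    rw [Nat.factorial_succ]
    push_cast
    rw [Real.exp_add, mul_comm]
    have h2 := Real.exp_one_lt_d9
    have h3 : Real.exp 1 ≤ (n : ℝ) + 1 := by
      have : (6 : ℝ) ≤ n := by exact_mod_cast hn
      linarith
    exact mul_le_mul h3 ih (Real.exp_pos _).le (by positivity)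

theorem gap_ge' {n : ℕ} (hn : 6 ≤ n) :
    (n : ℝ) / 2 * Real.exp (-(n : ℝ)) ≤ 1 - (maxAgreement n).toReal := by
  have h1 := gap_ge (n := n) (by omega)
  have h2 := exp_le_factorial hn
  have h3 : 1 / (n.factorial : ℝ) ≤ Real.exp (-(n : ℝ)) := by
    rw [Real.exp_neg, ← one_div]
    exact one_div_le_one_div_of_le (Real.exp_pos _) h2
  have h4 : ((n : ℝ) + 2) / 2 * Real.exp (-(n : ℝ)) =
      (n : ℝ) / 2 * Real.exp (-(n : ℝ)) + Real.exp (-(n : ℝ)) := by ring
  linarith

theorem factorial_le_stirling {n : ℕ} (hn : 1 ≤ n) :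
    (n.factorial : ℝ) ≤ Real.exp 1 * √n * ((n : ℝ) / Real.exp 1) ^ n := by
  have hn' : (0 : ℝ) < n := by exact_mod_cast hn
  have h1 : Stirling.stirlingSeq n ≤ Stirling.stirlingSeq 1 := by
    have := Stirling.stirlingSeq'_antitone (show 0 ≤ n - 1 by omega)
    simp only [Function.comp, Nat.succ_eq_add_one] at this
    rwa [show n - 1 + 1 = n by omega, show 0 + 1 = 1 by omega] at this
  rw [Stirling.stirlingSeq_one] at h1
  unfold Stirling.stirlingSeq at h1
  have he : 0 < Real.exp 1 := Real.exp_pos 1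
  have hs2 : 0 < √2 := Real.sqrt_pos.mpr (by norm_num)
  have hsn : 0 < √(n : ℝ) := Real.sqrt_pos.mpr hn'
  have h2 : √(2 * (n : ℝ)) = √2 * √n := Real.sqrt_mul (by norm_num) _
  rw [h2, div_le_div_iff₀ (by positivity) hs2] at h1
  have h3 : (n.factorial : ℝ) * √2 ≤ Real.exp 1 * √n * ((n : ℝ) / Real.exp 1) ^ n * √2 := by
    calc (n.factorial : ℝ) * √2 ≤ _ := h1
      _ = _ := by ring
  exact le_of_mul_le_mul_right h3 hs2

theorem gap_le_all {n : ℕ} (hn : 1 ≤ n) :
    1 - (maxAgreement n).toReal ≤ 128 * n * Real.exp (-(n : ℝ)) := by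
  rcases le_or_gt 8 n with h | h
  · exact gap_le h
  · have h1 := lower_bound hn
    have hn' : (0 : ℝ) < n := by exact_mod_cast hn
    have h2 := factorial_le_stirling hn
    have h3 : √(n : ℝ) ≤ 3 := by
      rw [Real.sqrt_le_left (by norm_num)]
      have : (n : ℝ) ≤ 8 := by exact_mod_cast h.le
      linarith
    have h4 := Real.exp_one_lt_d9
    have h5 : Real.exp 1 * √n ≤ 128 := by
      have := Real.sqrt_nonneg (n : ℝ)
      nlinarith [Real.exp_pos 1]
    have h6 : ((n : ℝ) / Real.exp 1) ^ n = (n : ℝ) ^ n * Real.exp (-(n : ℝ)) := by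
      rw [div_pow, Real.exp_neg, ← Real.exp_nat_mul, mul_one]
      rfl
    have h7 : (n.factorial : ℝ) ≤ 128 * ((n : ℝ) ^ n * Real.exp (-(n : ℝ))) := by
      rw [h6] at h2
      exact h2.trans (mul_le_mul_of_nonneg_right h5 (by positivity))
    have h8 : (n : ℝ) ^ n = n * n ^ (n - 1) := by
      rw [← pow_succ', Nat.sub_add_cancel hn]
    have h9 : (n.factorial : ℝ) / n ^ (n - 1) ≤ 128 * n * Real.exp (-(n : ℝ)) := by
      rw [div_le_iff₀ (by positivity)]
      refine h7.trans (le_of_eq ?_)
      rw [h8]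
      ring
    linarith

theorem theta : (fun n : ℕ => 1 - (maxAgreement n).toReal) =Θ[atTop]
    (fun n : ℕ => (n : ℝ) * Real.exp (-(n : ℝ))) := by
  constructor
  · apply IsBigO.of_bound 128
    filter_upwards [eventually_ge_atTop 6] with n hn
    have h1 := gap_le_all (n := n) (by omega)
    have h2 := gap_ge' hn
    have h3 : (0 : ℝ) ≤ (n : ℝ) / 2 * Real.exp (-(n : ℝ)) := by positivity
    rw [Real.norm_of_nonneg (by linarith), Real.norm_of_nonneg (by positivity)]
    linarith
  · apply IsBigO.of_bound 2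
    filter_upwards [eventually_ge_atTop 6] with n hn
    have h2 := gap_ge' hn
    have h3 : (0 : ℝ) ≤ (n : ℝ) / 2 * Real.exp (-(n : ℝ)) := by positivity
    rw [Real.norm_of_nonneg (by positivity), Real.norm_of_nonneg (by linarith)]
    linarith

end Pool.Agent.Helper45.CR
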