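import Mathlib

set_option autoImplicit false

namespace Pool.Agent.Helper45.CR

open Finset

theorem tele (s : ℝ) (hs : 0 < s) (a : ℕ) :
    (s + 1) * (a : ℝ) ^ s ≤ ((a : ℝ) + 1) ^ (s + 1) - (a : ℝ) ^ (s + 1) := by
  rcases Nat.eq_zero_or_pos a with h | h
  · subst h
    simp [Real.zero_rpow hs.ne', Real.zero_rpow (by linarith : s + 1 ≠ 0)]
  · have ha : (0 : ℝ) < a := by exact_mod_cast h
    have h1 := one_add_mul_self_le_rpow_one_add (s := 1 / (a : ℝ))
      (by have : 0 ≤ 1 / (a : ℝ) := by positivity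
          linarith) (p := s + 1) (by linarith)
    have h2 : ((a : ℝ) + 1) ^ (s + 1) = (a : ℝ) ^ (s + 1) * (1 + 1 / (a : ℝ)) ^ (s + 1) := by
      rw [← Real.mul_rpow ha.le (by positivity)]
      congr 1
      field_simp
    have h3 : (a : ℝ) ^ (s + 1) = (a : ℝ) ^ s * a := Real.rpow_add_one ha.ne' s
    have h4 : (0 : ℝ) < (a : ℝ) ^ (s + 1) := by positivity
    have h5 := mul_le_mul_of_nonneg_left h1 h4.le
    rw [h2]
    have h6 : (a : ℝ) ^ (s + 1) * (1 + (s + 1) * (1 / (a : ℝ))) =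
        (a : ℝ) ^ (s + 1) + (s + 1) * (a : ℝ) ^ s := by
      rw [h3]
      field_simp
    rw [h6] at h5
    linarith

theorem row (s : ℝ) (hs : 0 < s) (b : ℕ) :
    ∑ a ∈ range b, ((a : ℝ) / b) ^ s ≤ b / (s + 1) := by
  rcases Nat.eq_zero_or_pos b with h | h
  · subst h; simp
  · have hb : (0 : ℝ) < b := by exact_mod_cast h
    have hs1 : 0 < s + 1 := by linarith
    have h1 : ∀ m : ℕ, (s + 1) * ∑ a ∈ range m, (a : ℝ) ^ s ≤ (m : ℝ) ^ (s + 1) := by
      intro m
      induction m with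
      | zero => simp [Real.zero_rpow hs1.ne']
      | succ m ih =>
        rw [sum_range_succ, mul_add]
        have := tele s hs m
        push_cast
        linarith
    have h2 : ∑ a ∈ range b, ((a : ℝ) / b) ^ s = (∑ a ∈ range b, (a : ℝ) ^ s) / (b : ℝ) ^ s := by
      rw [sum_div]
      apply sum_congr rfl
      intro a _
      rw [Real.div_rpow (by positivity) hb.le]
    have h3 : (b : ℝ) ^ (s + 1) = (b : ℝ) ^ s * b := Real.rpow_add_one hb.ne' s
    have h4 : (0 : ℝ) < (b : ℝ) ^ s := by positivity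
    rw [h2, div_le_div_iff₀ h4 hs1]
    have h5 := h1 b
    rw [h3] at h5
    linarith

/-- kernel of the second moment -/
noncomputable def ker (s : ℝ) (a b : ℕ) : ℝ :=
  if a = 0 ∨ b = 0 then 0 else (min (a : ℝ) b / max (a : ℝ) b) ^ s

theorem ker_le (s : ℝ) (hs : 0 < s) (a b : ℕ) :
    ker s a b ≤ (if a < b then ((a : ℝ) / b) ^ s else 0) + (if b < a then ((b : ℝ) / a) ^ s else 0) +
      (if a = b then 1 else 0) := by
  unfold ker
  by_cases h0 : a = 0 ∨ b = 0
  · rw [if_pos h0]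
    have e1 : (0 : ℝ) ≤ (if a < b then ((a : ℝ) / b) ^ s else 0) := by split_ifs <;> positivity
    have e2 : (0 : ℝ) ≤ (if b < a then ((b : ℝ) / a) ^ s else 0) := by split_ifs <;> positivity
    have e3 : (0 : ℝ) ≤ (if a = b then 1 else 0) := by split_ifs <;> norm_num
    linarith
  · rw [if_neg h0]
    rcases lt_trichotomy a b with h | h | h
    · have h' : (a : ℝ) ≤ b := by exact_mod_cast h.le
      rw [min_eq_left h', max_eq_right h', if_pos h, if_neg (by omega), if_neg (by omega)]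
      linarith
    · have hb : (b : ℝ) ≠ 0 := by
        have : b ≠ 0 := fun h => h0 (Or.inr h)
        exact_mod_cast this
      subst h
      simp [hb]
    · have h' : (b : ℝ) ≤ a := by exact_mod_cast h.le
      rw [min_eq_right h', max_eq_left h', if_neg (by omega), if_pos h, if_neg (by omega)]
      linarith

theorem ker_sum (s : ℝ) (hs : 0 < s) (N : ℕ) :
    ∑ a ∈ range N, ∑ b ∈ range N, ker s a b ≤ (N : ℝ) ^ 2 / (s + 1) + N := by
  have hs1 : 0 < s + 1 := by linarith
  have h1 : ∑ a ∈ range N, ∑ b ∈ range N, ker s a b ≤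
      ∑ a ∈ range N, ∑ b ∈ range N, ((if a < b then ((a : ℝ) / b) ^ s else 0) +
        (if b < a then ((b : ℝ) / a) ^ s else 0) + (if a = b then 1 else 0)) :=
    sum_le_sum fun a _ => sum_le_sum fun b _ => ker_le s hs a b
  have h2 : ∀ b ∈ range N, ∑ a ∈ range N, (if a < b then ((a : ℝ) / b) ^ s else 0) ≤
      b / (s + 1) := by
    intro b hb
    have hb' := mem_range.mp hb
    rw [← sum_filter]
    have h3 : (range N).filter (fun a => a < b) = range b := by
      ext x
      simp only [mem_filter, mem_range]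
      omega
    rw [h3]
    exact row s hs b
  have h4 : ∑ a ∈ range N, ∑ b ∈ range N, (if a = b then (1 : ℝ) else 0) = N := by
    have e : ∀ a ∈ range N, ∑ b ∈ range N, (if a = b then (1 : ℝ) else 0) = 1 := by
      intro a ha
      rw [Finset.sum_ite_eq, if_pos ha]
    rw [sum_congr rfl e]
    simp
  simp only [sum_add_distrib] at h1
  rw [h4] at h1
  have h5 : ∑ a ∈ range N, ∑ b ∈ range N, (if a < b then ((a : ℝ) / b) ^ s else 0) ≤
      ∑ b ∈ range N, (b : ℝ) / (s + 1) := by
    rw [sum_comm]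
    exact sum_le_sum h2
  have h6 : ∑ a ∈ range N, ∑ b ∈ range N, (if b < a then ((b : ℝ) / a) ^ s else 0) ≤
      ∑ b ∈ range N, (b : ℝ) / (s + 1) := sum_le_sum h2
  have h7 : ∑ b ∈ range N, (b : ℝ) / (s + 1) ≤ (N : ℝ) ^ 2 / (2 * (s + 1)) := by
    rw [← sum_div]
    have h8 : ∑ b ∈ range N, (b : ℝ) ≤ (N : ℝ) ^ 2 / 2 := by
      have : ∀ m : ℕ, ∑ b ∈ range m, (b : ℝ) ≤ (m : ℝ) ^ 2 / 2 := by
        intro m
        induction m with
        | zero => simp
        | succ m ih =>
          rw [sum_range_succ]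
          push_cast
          nlinarith
      exact this N
    calc (∑ b ∈ range N, (b : ℝ)) / (s + 1) ≤ ((N : ℝ) ^ 2 / 2) / (s + 1) :=
          div_le_div_of_nonneg_right h8 hs1.le
      _ = _ := by rw [div_div]
  have h9 : (N : ℝ) ^ 2 / (2 * (s + 1)) + (N : ℝ) ^ 2 / (2 * (s + 1)) = (N : ℝ) ^ 2 / (s + 1) := by
    field_simp
    ring
  linarith

theorem ker_nonneg (s : ℝ) (a b : ℕ) : 0 ≤ ker s a b := by
  unfold ker
  split_ifs
  · exact le_rfl
  · positivity

end Pool.Agent.Helper45.CR
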