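import Pool.Agent.Helper45.CR.Mom
import Pool.Agent.Helper45.CR.Sums

set_option autoImplicit false

namespace Pool.Agent.Helper45.CR

open MeasureTheory Finset Filter Topology Pool.Agent.Helper43.Copula Pool.Agent.Helper3.Cop

variable {n : ℕ}

/-- the distance of the upper end of the cell `c` from `1` -/
noncomputable def qv (N c : ℕ) : ℝ := 1 - ((c : ℝ) + 1) / N

theorem qv_pos {N c : ℕ} (h : c + 1 < N) : 0 < qv N c := by
  have hN : (0 : ℝ) < N := by
    have : 0 < N := by omega
    exact_mod_cast this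
  unfold qv
  rw [sub_pos, div_lt_one hN]
  exact_mod_cast h

theorem qv_nonneg {N c : ℕ} (h : c < N) : 0 ≤ qv N c := by
  have hN : (0 : ℝ) < N := by
    have : 0 < N := by omega
    exact_mod_cast this
  unfold qv
  rw [sub_nonneg, div_le_one hN]
  exact_mod_cast h

theorem qv_le_one {N c : ℕ} : qv N c ≤ 1 := by
  unfold qv
  have : (0 : ℝ) ≤ ((c : ℝ) + 1) / N := by positivity
  linarith

theorem qv_eq {N c : ℕ} (h : c < N) : qv N c = ((N - 1 - c : ℕ) : ℝ) / N := by
  have hN : (0 : ℝ) < N := by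
    have : 0 < N := by omega
    exact_mod_cast this
  unfold qv
  rw [Nat.cast_sub (by omega), Nat.cast_sub (by omega)]
  field_simp
  push_cast
  ring

/-- expectation of a function of one coordinate -/
theorem sum_mass_fun (hn : 1 ≤ n) {C : (Fin n → ℝ) → ℝ} (hC : IsCopula n C) {N : ℕ} (hN : 1 ≤ N)
    (k : Fin n) (f : ℕ → ℝ) :
    ∑ j ∈ Fintype.piFinset (fun _ : Fin n => range N), mass C N j * f (j k) =
      (∑ c ∈ range N, f c) / N := by
  classical
  rw [← sum_fiberwise_of_maps_to (s := Fintype.piFinset (fun _ : Fin n => range N))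
    (t := range N) (g := fun j => j k) (fun j hj => (Fintype.mem_piFinset.mp hj k)), sum_div]
  apply sum_congr rfl
  intro c hc
  have h1 := sum_mass_slab hn hC hN k (mem_range.mp hc)
  calc _ = ∑ j ∈ Fintype.piFinset (fun _ : Fin n => range N) with j k = c, mass C N j * f c := by
        apply sum_congr rfl
        intro j hj
        rw [(mem_filter.mp hj).2]
    _ = (∑ j ∈ Fintype.piFinset (fun _ : Fin n => range N) with j k = c, mass C N j) * f c := by
        rw [sum_mul]
    _ = _ := by rw [h1]; ring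

/-- test function of the first moment -/
noncomputable def psi (L : ℝ) (N c : ℕ) : ℝ :=
  if c + 1 < N then (1 / 2) * Real.log (qv N c) else -L

theorem psi_nonpos {L : ℝ} (hL : 0 ≤ L) (N c : ℕ) : psi L N c ≤ 0 := by
  unfold psi
  split_ifs with h
  · have := Real.log_nonpos (qv_pos h).le qv_le_one
    linarith
  · linarith

theorem sum_psi (L : ℝ) {N : ℕ} (hN : 1 ≤ N) :
    -(N : ℝ) / 2 - L ≤ ∑ c ∈ range N, psi L N c := by
  have hN' : (0 : ℝ) < N := by exact_mod_cast hN
  obtain ⟨m, rfl⟩ : ∃ m, N = m + 1 := ⟨N - 1, by omega⟩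
  rw [sum_range_succ]
  have h1 : psi L (m + 1) m = -L := by simp [psi]
  rw [h1]
  have h2 : ∀ c ∈ range m, psi L (m + 1) c =
      (1 / 2) * (Real.log ((m - c : ℕ) : ℝ) - Real.log ((m + 1 : ℕ) : ℝ)) := by
    intro c hc
    have hc' := mem_range.mp hc
    unfold psi
    rw [if_pos (by omega), qv_eq (by omega)]
    have h3 : m + 1 - 1 - c = m - c := by omega
    rw [h3, Real.log_div]
    · have : 0 < m - c := by omega
      positivity
    · positivity
  rw [sum_congr rfl h2, ← mul_sum, sum_sub_distrib, sum_const, card_range, nsmul_eq_mul]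
  have h5 : ∑ c ∈ range m, Real.log ((m - c : ℕ) : ℝ) = Real.log (m.factorial : ℝ) := by
    rw [← Finset.sum_range_reflect, ← Finset.prod_range_add_one_eq_factorial, Nat.cast_prod,
      Real.log_prod]
    · apply sum_congr rfl
      intro c hc
      have := mem_range.mp hc
      congr 2
      omega
    · intro c _
      positivity
  rw [h5]
  have h6 := log_factorial_bound (m + 1) (by omega)
  have h7 : Real.log ((m + 1).factorial : ℝ) =
      Real.log ((m + 1 : ℕ) : ℝ) + Real.log (m.factorial : ℝ) := by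
    rw [Nat.factorial_succ, Nat.cast_mul, Real.log_mul (by positivity) (by positivity)]
  rw [h7] at h6
  push_cast at h6 ⊢
  linarith

/-- cells away from the upper faces -/
def good (n N : ℕ) : Finset (Fin n → ℕ) :=
  (Fintype.piFinset (fun _ : Fin n => range N)).filter (fun j => ∀ k, j k + 1 < N)

theorem first_moment (hn : 1 ≤ n) {C : (Fin n → ℝ) → ℝ} (hC : IsCopula n C) {N : ℕ}
    (hN : 1 ≤ N) :
    Real.exp (-((n : ℝ) / 2)) * (1 - (n : ℝ) / N * (1 + (n : ℝ) / 2)) ≤
      ∑ j ∈ good n N, mass C N j * Real.sqrt (∏ k, qv N (j k)) := by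
  classical
  have hN' : (0 : ℝ) < N := by exact_mod_cast hN
  set L : ℝ := 1 + (n : ℝ) / 2 with hL
  have hL0 : 0 ≤ L := by positivity
  set J := Fintype.piFinset (fun _ : Fin n => range N) with hJ
  have hjN : ∀ j ∈ J, ∀ k, j k < N := by
    intro j hj k
    rw [hJ, Fintype.mem_piFinset] at hj
    exact mem_range.mp (hj k)
  have h1 : ∀ j ∈ J, mass C N j * (Real.exp (-((n : ℝ) / 2)) * (L + ∑ k, psi L N (j k))) ≤
      mass C N j * (if (∀ k, j k + 1 < N) then Real.sqrt (∏ k, qv N (j k)) else 0) := by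
    intro j hj
    apply mul_le_mul_of_nonneg_left _ (mass_nonneg hC hN (hjN j hj))
    split_ifs with hg
    · have hq : ∀ k, 0 < qv N (j k) := fun k => qv_pos (hg k)
      have h2 : ∑ k, psi L N (j k) = (1 / 2) * Real.log (∏ k, qv N (j k)) := by
        rw [Real.log_prod (fun k _ => (hq k).ne'), mul_sum]
        apply sum_congr rfl
        intro k _
        unfold psi
        rw [if_pos (hg k)]
      have hP : 0 < ∏ k, qv N (j k) := prod_pos fun k _ => hq k
      have h3 : Real.sqrt (∏ k, qv N (j k)) = Real.exp ((1 / 2) * Real.log (∏ k, qv N (j k))) := by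
        rw [Real.sqrt_eq_rpow, Real.rpow_def_of_pos hP, mul_comm]
      rw [h2, h3]
      set y := (1 / 2) * Real.log (∏ k, qv N (j k)) with hy
      have h4 : Real.exp y = Real.exp (-((n : ℝ) / 2)) * Real.exp (y + (n : ℝ) / 2) := by
        rw [← Real.exp_add]
        congr 1
        ring
      rw [h4]
      apply mul_le_mul_of_nonneg_left _ (Real.exp_pos _).le
      have := Real.add_one_le_exp (y + (n : ℝ) / 2)
      rw [hL]
      linarith
    · push Not at hg
      obtain ⟨k, hk⟩ := hg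
      have h2 : ∑ k, psi L N (j k) ≤ -L := by
        rw [← add_sum_erase _ _ (mem_univ k)]
        have h3 : psi L N (j k) = -L := by
          unfold psi
          rw [if_neg (by omega)]
        have h4 : ∑ l ∈ univ.erase k, psi L N (j l) ≤ 0 :=
          sum_nonpos fun l _ => psi_nonpos hL0 _ _
        linarith
      exact mul_nonpos_of_nonneg_of_nonpos (Real.exp_pos _).le (by linarith)
  have h2 := sum_le_sum h1
  have h3 : ∑ j ∈ J, mass C N j * (if (∀ k, j k + 1 < N) then Real.sqrt (∏ k, qv N (j k)) else 0) =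
      ∑ j ∈ good n N, mass C N j * Real.sqrt (∏ k, qv N (j k)) := by
    unfold good
    rw [sum_filter]
    apply sum_congr rfl
    intro j _
    split_ifs <;> simp
  rw [h3] at h2
  refine le_trans ?_ h2
  have h4 : ∑ j ∈ J, mass C N j * (Real.exp (-((n : ℝ) / 2)) * (L + ∑ k, psi L N (j k))) =
      Real.exp (-((n : ℝ) / 2)) * (L + n * ((∑ c ∈ range N, psi L N c) / N)) := by
    have e1 : ∀ j ∈ J, mass C N j * (Real.exp (-((n : ℝ) / 2)) * (L + ∑ k, psi L N (j k))) =
        Real.exp (-((n : ℝ) / 2)) * (mass C N j * L + ∑ k, mass C N j * psi L N (j k)) := by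
      intro j _
      rw [← mul_sum]
      ring
    rw [sum_congr rfl e1, ← mul_sum, sum_add_distrib, ← sum_mul, sum_mass_total hn hC hN,
      sum_comm, sum_congr rfl fun k _ => sum_mass_fun hn hC hN k (psi L N)]
    simp
  rw [h4]
  apply mul_le_mul_of_nonneg_left _ (Real.exp_pos _).le
  have h5 := sum_psi L hN
  have h6 : (-(N : ℝ) / 2 - L) / N ≤ (∑ c ∈ range N, psi L N c) / N :=
    div_le_div_of_nonneg_right h5 hN'.le
  have h7 : (n : ℝ) * ((-(N : ℝ) / 2 - L) / N) ≤ n * ((∑ c ∈ range N, psi L N c) / N) :=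
    mul_le_mul_of_nonneg_left h6 (by positivity)
  have h8 : (n : ℝ) * ((-(N : ℝ) / 2 - L) / N) = -(n : ℝ) / 2 - n / N * L := by
    field_simp
  rw [h8] at h7
  linarith

/-- pointwise bound of the kernel of the second moment -/
theorem kernel_le (hn : 1 ≤ n) {N : ℕ} {i j : Fin n → ℕ} (hi : ∀ k, i k + 1 < N)
    (hj : ∀ k, j k + 1 < N) :
    (∏ k, min (qv N (i k)) (qv N (j k))) /
      (Real.sqrt (∏ k, qv N (i k)) * Real.sqrt (∏ k, qv N (j k))) ≤
      (1 / n) * ∑ k, ker ((n : ℝ) / 2) (N - 1 - i k) (N - 1 - j k) := by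
  have hn' : (0 : ℝ) < n := by exact_mod_cast hn
  have hqi : ∀ k, 0 < qv N (i k) := fun k => qv_pos (hi k)
  have hqj : ∀ k, 0 < qv N (j k) := fun k => qv_pos (hj k)
  set t : Fin n → ℝ := fun k => min (qv N (i k)) (qv N (j k)) / max (qv N (i k)) (qv N (j k)) with ht
  have ht0 : ∀ k, 0 < t k := fun k => div_pos (lt_min (hqi k) (hqj k)) (lt_max_of_lt_left (hqi k))
  have h1 : (∏ k, min (qv N (i k)) (qv N (j k))) /
      (Real.sqrt (∏ k, qv N (i k)) * Real.sqrt (∏ k, qv N (j k))) = ∏ k, t k ^ (1 / 2 : ℝ) := by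
    rw [← Real.sqrt_mul (prod_nonneg fun k _ => (hqi k).le), ← prod_mul_distrib,
      Real.finsetProd_rpow _ _ (fun k _ => (ht0 k).le), ← Real.sqrt_eq_rpow]
    have hm : 0 < ∏ k, min (qv N (i k)) (qv N (j k)) := prod_pos fun k _ => lt_min (hqi k) (hqj k)
    have hM : 0 < ∏ k, qv N (i k) * qv N (j k) := prod_pos fun k _ => mul_pos (hqi k) (hqj k)
    rw [← Real.sqrt_sq hm.le, ← Real.sqrt_div (by positivity)]
    congr 1
    rw [sq, ← prod_mul_distrib, ← prod_div_distrib]
    apply prod_congr rfl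
    intro k _
    have h2 := hqi k
    have h3 := hqj k
    simp only [ht]
    rw [← min_mul_max (qv N (i k)) (qv N (j k))]
    have h4 : 0 < min (qv N (i k)) (qv N (j k)) := lt_min h2 h3
    have h5 : 0 < max (qv N (i k)) (qv N (j k)) := lt_max_of_lt_left h2
    field_simp
  rw [h1]
  have h2 := Real.geom_mean_le_arith_mean_weighted univ (fun _ : Fin n => 1 / (n : ℝ))
    (fun k => t k ^ ((n : ℝ) / 2)) (fun _ _ => by positivity)
    (by simp [hn'.ne']) (fun k _ => by have := ht0 k; positivity)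
  have h3 : ∏ k : Fin n, (t k ^ ((n : ℝ) / 2)) ^ (1 / (n : ℝ)) = ∏ k, t k ^ (1 / 2 : ℝ) := by
    apply prod_congr rfl
    intro k _
    rw [← Real.rpow_mul (ht0 k).le]
    congr 1
    field_simp
  rw [h3] at h2
  refine h2.trans (le_of_eq ?_)
  rw [mul_sum]
  apply sum_congr rfl
  intro k _
  congr 1
  have hN : (0 : ℝ) < N := by
    have : 0 < N := by have := hi k; omega
    exact_mod_cast this
  have e1 := qv_eq (N := N) (c := i k) (by have := hi k; omega)
  have e2 := qv_eq (N := N) (c := j k) (by have := hj k; omega)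
  unfold ker
  rw [if_neg (by have := hi k; have := hj k; omega)]
  congr 1
  simp only [ht]
  rw [e1, e2, min_div_div_right hN.le, max_div_div_right hN.le]
  field_simp

theorem second_le (hn : 1 ≤ n) {C : (Fin n → ℝ) → ℝ} (hC : IsCopula n C) {N : ℕ}
    (hN : 1 ≤ N) :
    ∑ i ∈ good n N, ∑ j ∈ good n N, mass C N i * mass C N j *
      ((∏ k, min (qv N (i k)) (qv N (j k))) /
      (Real.sqrt (∏ k, qv N (i k)) * Real.sqrt (∏ k, qv N (j k)))) ≤
      2 / ((n : ℝ) + 2) + 1 / N := by
  classical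
  have hn' : (0 : ℝ) < n := by exact_mod_cast hn
  have hN' : (0 : ℝ) < N := by exact_mod_cast hN
  set J := Fintype.piFinset (fun _ : Fin n => range N) with hJ
  have hjN : ∀ j ∈ J, ∀ k, j k < N := by
    intro j hj k
    rw [hJ, Fintype.mem_piFinset] at hj
    exact mem_range.mp (hj k)
  have hm : ∀ j ∈ J, 0 ≤ mass C N j := fun j hj => mass_nonneg hC hN (hjN j hj)
  have hgJ : good n N ⊆ J := filter_subset _ _
  have hgd : ∀ j ∈ good n N, ∀ k, j k + 1 < N := fun j hj => (mem_filter.mp hj).2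
  have hK : ∀ i j : Fin n → ℕ, 0 ≤ (1 / (n : ℝ)) * ∑ k, ker ((n : ℝ) / 2) (N - 1 - i k) (N - 1 - j k) :=
    fun i j => mul_nonneg (by positivity) (sum_nonneg fun k _ => ker_nonneg _ _ _)
  calc _ ≤ ∑ i ∈ good n N, ∑ j ∈ good n N, mass C N i * mass C N j *
        ((1 / n) * ∑ k, ker ((n : ℝ) / 2) (N - 1 - i k) (N - 1 - j k)) := by
        apply sum_le_sum
        intro i hi
        apply sum_le_sum
        intro j hj
        exact mul_le_mul_of_nonneg_left (kernel_le hn (hgd i hi) (hgd j hj))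
          (mul_nonneg (hm i (hgJ hi)) (hm j (hgJ hj)))
    _ ≤ ∑ i ∈ J, ∑ j ∈ J, mass C N i * mass C N j *
        ((1 / n) * ∑ k, ker ((n : ℝ) / 2) (N - 1 - i k) (N - 1 - j k)) := by
        refine (sum_le_sum fun i hi => sum_le_sum_of_subset_of_nonneg hgJ fun j hj _ =>
          mul_nonneg (mul_nonneg (hm i (hgJ hi)) (hm j hj)) (hK i j)).trans ?_
        exact sum_le_sum_of_subset_of_nonneg hgJ fun i hi _ => sum_nonneg fun j hj =>
          mul_nonneg (mul_nonneg (hm i hi) (hm j hj)) (hK i j)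
    _ = (1 / n) * ∑ k : Fin n, ∑ i ∈ J, mass C N i *
        ∑ j ∈ J, mass C N j * ker ((n : ℝ) / 2) (N - 1 - i k) (N - 1 - j k) := by
        have e1 : ∀ i ∈ J, ∑ j ∈ J, mass C N i * mass C N j *
            ((1 / n) * ∑ k, ker ((n : ℝ) / 2) (N - 1 - i k) (N - 1 - j k)) =
            (1 / n) * ∑ k : Fin n, mass C N i *
              ∑ j ∈ J, mass C N j * ker ((n : ℝ) / 2) (N - 1 - i k) (N - 1 - j k) := by
          intro i _
          have e2 : ∀ j ∈ J, mass C N i * mass C N j *
              ((1 / n) * ∑ k, ker ((n : ℝ) / 2) (N - 1 - i k) (N - 1 - j k)) =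
              (1 / n) * ∑ k : Fin n, mass C N i *
                (mass C N j * ker ((n : ℝ) / 2) (N - 1 - i k) (N - 1 - j k)) := by
            intro j _
            rw [← mul_sum, ← mul_sum]
            ring
          rw [sum_congr rfl e2, ← mul_sum, sum_comm]
          congr 1
          apply sum_congr rfl
          intro k _
          rw [mul_sum]
        rw [sum_congr rfl e1, ← mul_sum, sum_comm]
    _ = (1 / n) * ∑ k : Fin n, (∑ a ∈ range N, ∑ b ∈ range N, ker ((n : ℝ) / 2) a b) / N ^ 2 := by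
        congr 1
        apply sum_congr rfl
        intro k _
        have e1 : ∀ i ∈ J, mass C N i *
            ∑ j ∈ J, mass C N j * ker ((n : ℝ) / 2) (N - 1 - i k) (N - 1 - j k) =
            mass C N i * ((∑ b ∈ range N, ker ((n : ℝ) / 2) (N - 1 - i k) b) / N) := by
          intro i _
          rw [sum_mass_fun hn hC hN k (fun c => ker ((n : ℝ) / 2) (N - 1 - i k) (N - 1 - c)),
            Finset.sum_range_reflect (fun b => ker ((n : ℝ) / 2) (N - 1 - i k) b)]
        rw [sum_congr rfl e1,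
          sum_mass_fun hn hC hN k
            (fun c => (∑ b ∈ range N, ker ((n : ℝ) / 2) (N - 1 - c) b) / N),
          Finset.sum_range_reflect (fun a => (∑ b ∈ range N, ker ((n : ℝ) / 2) a b) / N),
          ← sum_div, div_div, sq]
    _ = (∑ a ∈ range N, ∑ b ∈ range N, ker ((n : ℝ) / 2) a b) / N ^ 2 := by
        rw [sum_const, card_univ, Fintype.card_fin, nsmul_eq_mul]
        field_simp
    _ ≤ _ := by
        rw [div_le_iff₀ (by positivity)]
        have := ker_sum ((n : ℝ) / 2) (by positivity) N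
        refine this.trans (le_of_eq ?_)
        field_simp

theorem volume_Icc_one {x : Fin n → ℝ} (hx : x ∈ cube n) :
    (volume (Set.Icc x (fun _ => (1 : ℝ)))).toReal = ∏ k, (1 - x k) := by
  rw [Real.volume_Icc_pi, ← ENNReal.ofReal_prod_of_nonneg (fun k _ => sub_nonneg.mpr (hx k).2),
    ENNReal.toReal_ofReal (prod_nonneg fun k _ => sub_nonneg.mpr (hx k).2)]

theorem key_ineq (hn : 1 ≤ n) {C : (Fin n → ℝ) → ℝ} (hC : IsCopula n C) {N : ℕ} (hN : 1 ≤ N)
    (hNb : (n : ℝ) / N * (1 + (n : ℝ) / 2) ≤ 1) :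
    (Real.exp (-((n : ℝ) / 2)) * (1 - (n : ℝ) / N * (1 + (n : ℝ) / 2))) ^ 2 ≤
      (volume (posSet n C)).toReal * (2 / ((n : ℝ) + 2) + 1 / N) := by
  classical
  have hN' : (0 : ℝ) < N := by exact_mod_cast hN
  have hgJ : good n N ⊆ Fintype.piFinset (fun _ : Fin n => range N) := filter_subset _ _
  have hgd : ∀ j ∈ good n N, ∀ k, j k + 1 < N := fun j hj => (mem_filter.mp hj).2
  have hgN : ∀ j ∈ good n N, ∀ k, j k < N := fun j hj k => by have := hgd j hj k; omega
  set w : (Fin n → ℕ) → ℝ := fun j => mass C N j / Real.sqrt (∏ k, qv N (j k)) with hw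
  set X : (Fin n → ℕ) → (Fin n → ℝ) := fun j => gp N (fun k => j k + 1) with hX
  have hXc : ∀ j ∈ good n N, X j ∈ cube n := fun j hj => gp_mem_cube hN (hgN j hj)
  have hXq : ∀ j : Fin n → ℕ, ∀ k, 1 - X j k = qv N (j k) := by
    intro j k
    simp only [hX, gp, qv]
    push_cast
    rfl
  set s := (good n N).filter (fun j => 0 < mass C N j) with hs
  have hsg : s ⊆ good n N := filter_subset _ _
  set B : (Fin n → ℕ) → Set (Fin n → ℝ) := fun j => Set.Icc (X j) (fun _ => 1) with hB
  have hBP : ∀ j ∈ s, B j ⊆ posSet n C := by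
    intro j hj x hx
    have hjg := hsg hj
    have hpos : 0 < C (X j) :=
      lt_of_lt_of_le (mem_filter.mp hj).2 (mass_le hn hC hN (hgN j hjg))
    have hxc : x ∈ cube n := fun k => ⟨((hXc j hjg) k).1.trans (hx.1 k), hx.2 k⟩
    exact ⟨hxc, lt_of_lt_of_le hpos (copula_mono hC (hXc j hjg) hxc hx.1)⟩
  have h1 := second_moment volume s B (fun _ _ => measurableSet_Icc) (posSet n C)
    (measurableSet_posSet hC) (volume_posSet_ne_top C) hBP w
  have h2 : ∑ i ∈ s, w i * (volume (B i)).toReal =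
      ∑ j ∈ good n N, mass C N j * Real.sqrt (∏ k, qv N (j k)) := by
    have e1 : ∀ j ∈ s, w j * (volume (B j)).toReal = mass C N j * Real.sqrt (∏ k, qv N (j k)) := by
      intro j hj
      have hjg := hsg hj
      have hP : 0 < ∏ k, qv N (j k) := prod_pos fun k _ => qv_pos (hgd j hjg k)
      simp only [hw, hB]
      rw [volume_Icc_one (hXc j hjg), prod_congr rfl fun k _ => hXq j k]
      have h3 := Real.sqrt_pos.mpr hP
      have h4 := Real.mul_self_sqrt hP.le
      rw [div_mul_eq_mul_div, div_eq_iff h3.ne', mul_assoc, h4]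
    rw [sum_congr rfl e1]
    apply sum_subset hsg
    intro j hj hjs
    have h3 := mass_nonneg hC hN (hgN j hj)
    have h4 : ¬ 0 < mass C N j := fun h => hjs (mem_filter.mpr ⟨hj, h⟩)
    have h5 : mass C N j = 0 := le_antisymm (not_lt.mp h4) h3
    rw [h5, zero_mul]
  have h3 : ∑ i ∈ s, ∑ j ∈ s, w i * w j * (volume (B i ∩ B j)).toReal ≤
      2 / ((n : ℝ) + 2) + 1 / N := by
    refine le_trans ?_ (second_le hn hC hN)
    have hm : ∀ j ∈ good n N, 0 ≤ mass C N j := fun j hj => mass_nonneg hC hN (hgN j hj)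
    have hterm : ∀ i ∈ good n N, ∀ j ∈ good n N, 0 ≤ mass C N i * mass C N j *
        ((∏ k, min (qv N (i k)) (qv N (j k))) /
        (Real.sqrt (∏ k, qv N (i k)) * Real.sqrt (∏ k, qv N (j k)))) := by
      intro i hi j hj
      refine mul_nonneg (mul_nonneg (hm i hi) (hm j hj)) (div_nonneg (prod_nonneg fun k _ =>
        le_min (qv_nonneg (hgN i hi k)) (qv_nonneg (hgN j hj k))) (by positivity))
    have e1 : ∀ i ∈ s, ∀ j ∈ s, w i * w j * (volume (B i ∩ B j)).toReal =
        mass C N i * mass C N j * ((∏ k, min (qv N (i k)) (qv N (j k))) /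
        (Real.sqrt (∏ k, qv N (i k)) * Real.sqrt (∏ k, qv N (j k)))) := by
      intro i hi j hj
      have hig := hsg hi
      have hjg := hsg hj
      have e2 : B i ∩ B j = Set.Icc (X i ⊔ X j) (fun _ => 1) := by
        simp only [hB]
        rw [Set.Icc_inter_Icc, inf_idem]
      have e3 : X i ⊔ X j ∈ cube n := fun k =>
        ⟨((hXc i hig) k).1.trans le_sup_left, sup_le ((hXc i hig) k).2 ((hXc j hjg) k).2⟩
      rw [e2, volume_Icc_one e3]
      have e4 : ∀ k, 1 - (X i ⊔ X j) k = min (qv N (i k)) (qv N (j k)) := by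
        intro k
        rw [← hXq, ← hXq]
        simp only [Pi.sup_apply]
        rcases le_total (X i k) (X j k) with h | h
        · rw [sup_of_le_right h, min_eq_right (by linarith)]
        · rw [sup_of_le_left h, min_eq_left (by linarith)]
      rw [prod_congr rfl fun k _ => e4 k]
      simp only [hw]
      ring
    rw [sum_congr rfl fun i hi => sum_congr rfl fun j hj => e1 i hi j hj]
    refine (sum_le_sum fun i hi => sum_le_sum_of_subset_of_nonneg hsg fun j hj _ =>
      hterm i (hsg hi) j hj).trans ?_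
    exact sum_le_sum_of_subset_of_nonneg hsg fun i hi _ => sum_nonneg fun j hj =>
      hterm i hi j hj
  have h4 := first_moment hn hC hN
  rw [← h2] at h4
  have h5 : 0 ≤ Real.exp (-((n : ℝ) / 2)) * (1 - (n : ℝ) / N * (1 + (n : ℝ) / 2)) :=
    mul_nonneg (Real.exp_pos _).le (by linarith)
  calc _ ≤ (∑ i ∈ s, w i * (volume (B i)).toReal) ^ 2 := pow_le_pow_left₀ h5 h4 2
    _ ≤ _ := h1
    _ ≤ _ := mul_le_mul_of_nonneg_left h3 ENNReal.toReal_nonneg

/-- a copula is positive on a set of volume at least `((n + 2) / 2) exp (-n)` -/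
theorem exp_le_volume' (hn : 1 ≤ n) {C : (Fin n → ℝ) → ℝ} (hC : IsCopula n C) :
    ((n : ℝ) + 2) / 2 * Real.exp (-(n : ℝ)) ≤ (volume (posSet n C)).toReal := by
  have hinv : ∀ c : ℝ, Tendsto (fun N : ℕ => c / (N : ℝ)) atTop (𝓝 0) := fun c =>
    tendsto_const_div_atTop_nhds_zero_nat c
  have h1 : Tendsto (fun N : ℕ =>
      (Real.exp (-((n : ℝ) / 2)) * (1 - (n : ℝ) / N * (1 + (n : ℝ) / 2))) ^ 2) atTop
      (𝓝 ((Real.exp (-((n : ℝ) / 2)) * (1 - 0 * (1 + (n : ℝ) / 2))) ^ 2)) :=
    (((((hinv n).mul_const _).const_sub 1).const_mul _).pow 2)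
  have h2 : Tendsto (fun N : ℕ =>
      (volume (posSet n C)).toReal * (2 / ((n : ℝ) + 2) + 1 / N)) atTop
      (𝓝 ((volume (posSet n C)).toReal * (2 / ((n : ℝ) + 2) + 0))) :=
    ((hinv 1).const_add _).const_mul _
  have h3 : ∀ᶠ N : ℕ in atTop, (n : ℝ) / N * (1 + (n : ℝ) / 2) ≤ 1 := by
    have h4 : Tendsto (fun N : ℕ => (n : ℝ) / N * (1 + (n : ℝ) / 2)) atTop
        (𝓝 (0 * (1 + (n : ℝ) / 2))) := (hinv n).mul_const _
    rw [zero_mul] at h4
    exact (h4.eventually (gt_mem_nhds zero_lt_one)).mono fun _ h => h.le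
  have h5 := le_of_tendsto_of_tendsto h1 h2 (by
    filter_upwards [h3, eventually_ge_atTop 1] with N hN hN1
    exact key_ineq hn hC hN1 hN)
  have h6 : (Real.exp (-((n : ℝ) / 2)) * (1 - 0 * (1 + (n : ℝ) / 2))) ^ 2 =
      Real.exp (-(n : ℝ)) := by
    rw [zero_mul, sub_zero, mul_one, sq, ← Real.exp_add]
    congr 1
    ring
  rw [h6, add_zero, mul_div_assoc', le_div_iff₀ (by positivity)] at h5
  linarith

end Pool.Agent.Helper45.CR
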