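import Pool.Agent.Helper3.Cop.Bound

set_option autoImplicit false

namespace Pool.Agent.Helper45.CR

open MeasureTheory Finset

/-- second moment inequality for a finite family of sets inside a set of finite measure -/
theorem second_moment {α ι : Type*} [MeasurableSpace α] (μ : Measure α) (s : Finset ι)
    (B : ι → Set α) (hB : ∀ i ∈ s, MeasurableSet (B i)) (P : Set α) (hP : MeasurableSet P)
    (hPf : μ P ≠ ⊤) (hBP : ∀ i ∈ s, B i ⊆ P) (c : ι → ℝ) :
    (∑ i ∈ s, c i * (μ (B i)).toReal) ^ 2 ≤
      (μ P).toReal * ∑ i ∈ s, ∑ j ∈ s, c i * c j * (μ (B i ∩ B j)).toReal := by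
  classical
  have hBf : ∀ i ∈ s, μ (B i) ≠ ⊤ := fun i hi =>
    ne_top_of_le_ne_top hPf (measure_mono (hBP i hi))
  have hint : ∀ S : Set α, MeasurableSet S → μ S ≠ ⊤ →
      Integrable (S.indicator (fun _ => (1 : ℝ))) μ := fun S hS hSf =>
    (integrable_indicator_iff hS).mpr (integrableOn_const hSf)
  have hval : ∀ S : Set α, MeasurableSet S →
      ∫ x, S.indicator (fun _ => (1 : ℝ)) x ∂μ = (μ S).toReal := by
    intro S hS
    rw [integral_indicator_const _ hS]
    simp [Measure.real]
  have hBB : ∀ i ∈ s, ∀ j ∈ s, μ (B i ∩ B j) ≠ ⊤ := fun i hi j _ =>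
    ne_top_of_le_ne_top (hBf i hi) (measure_mono Set.inter_subset_left)
  set G : ℝ := ∑ i ∈ s, c i * (μ (B i)).toReal with hG
  set Q : ℝ := ∑ i ∈ s, ∑ j ∈ s, c i * c j * (μ (B i ∩ B j)).toReal with hQ
  set v : ℝ := (μ P).toReal with hv
  have key : ∀ t : ℝ, 0 ≤ Q - 2 * t * G + t ^ 2 * v := by
    intro t
    have h1 : ∫ x, (∑ i ∈ s, c i * (B i).indicator (fun _ => (1 : ℝ)) x -
        t * P.indicator (fun _ => (1 : ℝ)) x) ^ 2 ∂μ = Q - 2 * t * G + t ^ 2 * v := by
      have h2 : ∀ x, (∑ i ∈ s, c i * (B i).indicator (fun _ => (1 : ℝ)) x -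
          t * P.indicator (fun _ => (1 : ℝ)) x) ^ 2 =
          (∑ i ∈ s, ∑ j ∈ s, c i * c j * (B i ∩ B j).indicator (fun _ => (1 : ℝ)) x) -
          2 * t * (∑ i ∈ s, c i * (B i).indicator (fun _ => (1 : ℝ)) x) +
          t ^ 2 * P.indicator (fun _ => (1 : ℝ)) x := by
        intro x
        have e1 : ∑ i ∈ s, ∑ j ∈ s, c i * c j * (B i ∩ B j).indicator (fun _ => (1 : ℝ)) x =
            (∑ i ∈ s, c i * (B i).indicator (fun _ => (1 : ℝ)) x) ^ 2 := by
          rw [sq, sum_mul_sum]
          apply sum_congr rfl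
          intro i _
          apply sum_congr rfl
          intro j _
          by_cases hi : x ∈ B i <;> by_cases hj : x ∈ B j <;> simp [hi, hj]
        have e2 : (∑ i ∈ s, c i * (B i).indicator (fun _ => (1 : ℝ)) x) *
            P.indicator (fun _ => (1 : ℝ)) x =
            ∑ i ∈ s, c i * (B i).indicator (fun _ => (1 : ℝ)) x := by
          rw [sum_mul]
          apply sum_congr rfl
          intro i hi
          by_cases hx : x ∈ B i
          · have hxP := hBP i hi hx
            simp [hx, hxP]
          · simp [hx]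
        have e3 : (P.indicator (fun _ => (1 : ℝ)) x) ^ 2 = P.indicator (fun _ => (1 : ℝ)) x := by
          by_cases hx : x ∈ P <;> simp [hx]
        rw [e1]
        calc _ = (∑ i ∈ s, c i * (B i).indicator (fun _ => (1 : ℝ)) x) ^ 2 -
              2 * t * ((∑ i ∈ s, c i * (B i).indicator (fun _ => (1 : ℝ)) x) *
                P.indicator (fun _ => (1 : ℝ)) x) +
              t ^ 2 * (P.indicator (fun _ => (1 : ℝ)) x) ^ 2 := by ring
          _ = _ := by rw [e2, e3]
      simp_rw [h2]
      have i1 : Integrable (fun x => ∑ i ∈ s, ∑ j ∈ s,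
          c i * c j * (B i ∩ B j).indicator (fun _ => (1 : ℝ)) x) μ := by
        apply integrable_finset_sum
        intro i hi
        apply integrable_finset_sum
        intro j hj
        exact (hint _ ((hB i hi).inter (hB j hj)) (hBB i hi j hj)).const_mul _
      have i2 : Integrable (fun x => ∑ i ∈ s, c i * (B i).indicator (fun _ => (1 : ℝ)) x) μ := by
        apply integrable_finset_sum
        intro i hi
        exact (hint _ (hB i hi) (hBf i hi)).const_mul _
      have i3 : Integrable (fun x => P.indicator (fun _ => (1 : ℝ)) x) μ := hint _ hP hPf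
      have I1 : ∫ x, (∑ i ∈ s, ∑ j ∈ s,
          c i * c j * (B i ∩ B j).indicator (fun _ => (1 : ℝ)) x) ∂μ = Q := by
        rw [integral_finset_sum, hQ]
        · apply sum_congr rfl
          intro i hi
          rw [integral_finset_sum]
          · apply sum_congr rfl
            intro j hj
            rw [integral_const_mul, hval _ ((hB i hi).inter (hB j hj))]
          · intro j hj
            exact (hint _ ((hB i hi).inter (hB j hj)) (hBB i hi j hj)).const_mul _
        · intro i hi
          apply integrable_finset_sum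
          intro j hj
          exact (hint _ ((hB i hi).inter (hB j hj)) (hBB i hi j hj)).const_mul _
      have I2 : ∫ x, (∑ i ∈ s, c i * (B i).indicator (fun _ => (1 : ℝ)) x) ∂μ = G := by
        rw [integral_finset_sum, hG]
        · apply sum_congr rfl
          intro i hi
          rw [integral_const_mul, hval _ (hB i hi)]
        · intro i hi
          exact (hint _ (hB i hi) (hBf i hi)).const_mul _
      have I3 : ∫ x, P.indicator (fun _ => (1 : ℝ)) x ∂μ = v := hval P hP
      have s1 := integral_add (f := fun x => (∑ i ∈ s, ∑ j ∈ s,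
          c i * c j * (B i ∩ B j).indicator (fun _ => (1 : ℝ)) x) -
          2 * t * (∑ i ∈ s, c i * (B i).indicator (fun _ => (1 : ℝ)) x))
          (g := fun x => t ^ 2 * P.indicator (fun _ => (1 : ℝ)) x)
          (i1.sub (i2.const_mul _)) (i3.const_mul _)
      have s2 := integral_sub (f := fun x => (∑ i ∈ s, ∑ j ∈ s,
          c i * c j * (B i ∩ B j).indicator (fun _ => (1 : ℝ)) x))
          (g := fun x => 2 * t * (∑ i ∈ s, c i * (B i).indicator (fun _ => (1 : ℝ)) x))
          i1 (i2.const_mul _)
      have s3 : ∫ x, 2 * t * (∑ i ∈ s, c i * (B i).indicator (fun _ => (1 : ℝ)) x) ∂μ =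
          2 * t * G := by rw [integral_const_mul, I2]
      have s4 : ∫ x, t ^ 2 * P.indicator (fun _ => (1 : ℝ)) x ∂μ = t ^ 2 * v := by
        rw [integral_const_mul, I3]
      rw [I1, s3] at s2
      rw [s4, s2] at s1
      exact s1
    rw [← h1]
    exact integral_nonneg fun x => sq_nonneg _
  have hv0 : 0 ≤ v := ENNReal.toReal_nonneg
  rcases hv0.eq_or_lt with h0 | h0
  · have hG0 : G = 0 := by
      rw [hG]
      apply sum_eq_zero
      intro i hi
      have h3 : (μ (B i)).toReal ≤ (μ P).toReal :=
        ENNReal.toReal_mono hPf (measure_mono (hBP i hi))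
      have h4 : 0 ≤ (μ (B i)).toReal := ENNReal.toReal_nonneg
      have h5 : (μ (B i)).toReal = 0 := le_antisymm (by rw [← hv, ← h0] at h3; exact h3) h4
      rw [h5, mul_zero]
    rw [hG0, ← h0]
    simp
  · have h3 := key (G / v)
    have h4 : Q - 2 * (G / v) * G + (G / v) ^ 2 * v = Q - G ^ 2 / v := by
      field_simp
      ring
    rw [h4, sub_nonneg, div_le_iff₀ h0] at h3
    linarith [mul_comm Q v]

end Pool.Agent.Helper45.CR
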